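import Pool.Agent.H91.LA.Own

/-!
# Natural jets from labels with a gradient exponent
-/

set_option autoImplicit false

namespace Pool.V0F

open Finset Real MvPolynomial
open Pool.Agent.H49.Ent Pool.Agent.H32.Dense Pool.STK Pool.KA Pool.KSAT Pool.K2S Pool.PB Pool.GEN
open Pool.S6C Pool.RCD Pool.LA91
open Pool.GRD (LbP)

variable {m : ℕ}

/-- **The natural jets exist**, from labels with the gradient exponent `E`. -/
theorem exs_jetE {S : PCl m} {I : Finset (Fin m)} {k : Fin m} {j : ℕ} {w p r E N : ℝ}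
    (hr : 0 ≤ r) (hE : 0 ≤ E) (h : ∀ e : ℝ, 0 < e → ∃ K : ℕ, Bas S (fun J F A =>
      Lb F I k K ⌊(E + e) * J⌋₊ J ⌊w * J⌋₊ ⌊(r + e) * J⌋₊ ⌊(p - e) * J⌋₊ A)) :
    Exs S (qJet m I k j w p N) := by
  intro e he
  obtain ⟨K, hK⟩ := h e he
  obtain ⟨C, hC, hbig⟩ := ojet_big m K j
  have hC0 : 0 < C := by linarith
  have hl2 : 0 < Real.log 2 := Real.log_pos one_lt_two
  obtain ⟨B, hB⟩ : ∃ B : ℝ, B = |N| + (E + e) + j * (r + e) := ⟨_, rfl⟩
  have hB0 : 0 ≤ B := by
    rw [hB]
    positivity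
  obtain ⟨M, hM⟩ : ∃ M : ℕ, M = max K ⌈B * Real.log 2 + 1⌉₊ := ⟨_, rfl⟩
  have hM1 : B * Real.log 2 + 1 ≤ M := by
    refine (Nat.le_ceil _).trans ?_
    rw [hM]
    exact_mod_cast le_max_right _ _
  have hKM : K ≤ M := by
    rw [hM]
    exact le_max_left _ _
  obtain ⟨J₁, hJ₁⟩ := exists_nat_ge (Real.log (2 * (C + 1) + 1))
  refine ⟨M, M, Bas.mono J₁ hK ?_⟩
  rintro J hJ F A ⟨V, z, z', G, hlb⟩
  have hJ0 : (0 : ℝ) ≤ J := Nat.cast_nonneg J
  have hJ1 : (J₁ : ℝ) ≤ J := by exact_mod_cast hJ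
  have hcnt : (cnt F.p (fun ω => ⌊(2 : ℝ) ^ (N * J) *
      ojet F k j (G (z' (slam F ⌊w * J⌋₊ ω))) ω⌋) A : ℝ) ≤ Real.exp (M * J) := by
    have b1 : (1 : ℝ) ≤ 2 ^ (B * J) := by
      rw [← exp_p2]
      exact Real.one_le_exp (by positivity)
    have h1 := cnt_le_of_abs (p := F.p) (u := fun ω => ⌊(2 : ℝ) ^ (N * J) *
      ojet F k j (G (z' (slam F ⌊w * J⌋₊ ω))) ω⌋) (A := A) (B := (C + 1) * 2 ^ (B * J))
      (by positivity) (by
        intro ω hω
        have h2 := hbig J F I k _ _ _ _ A V z z' G hlb ω hω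
        obtain ⟨o, ho⟩ : ∃ o, o = ojet F k j (G (z' (slam F ⌊w * J⌋₊ ω))) ω := ⟨_, rfl⟩
        rw [← ho] at h2 ⊢
        have h3 : |(2 : ℝ) ^ (N * J) * o| ≤ C * 2 ^ (B * J) := by
          rw [abs_mul, abs_of_pos (by positivity)]
          have a2 : (2 : ℝ) ^ ⌊(E + e) * J⌋₊ ≤ 2 ^ ((E + e) * J) := p2_le (by positivity)
          have a3 : ((2 : ℝ) ^ ⌊(r + e) * J⌋₊) ^ j ≤ 2 ^ (j * ((r + e) * J)) := by
            refine (pow_le_pow_left₀ (by positivity) (p2_le (by positivity)) j).trans (le_of_eq ?_)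
            rw [← Real.rpow_natCast, ← Real.rpow_mul (by norm_num)]
            congr 1
            ring
          have b3 : (0 : ℝ) < 2 ^ (N * J) := Real.rpow_pos_of_pos (by norm_num) _
          have b4 : (0 : ℝ) < 2 ^ ((E + e) * J) := Real.rpow_pos_of_pos (by norm_num) _
          have b5 : (0 : ℝ) < 2 ^ (j * ((r + e) * J)) := Real.rpow_pos_of_pos (by norm_num) _
          calc (2 : ℝ) ^ (N * J) * |o| ≤ 2 ^ (N * J) * (C * 2 ^ ((E + e) * J) *
                2 ^ (j * ((r + e) * J))) := by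
                refine mul_le_mul_of_nonneg_left (h2.trans ?_) b3.le
                exact mul_le_mul (mul_le_mul_of_nonneg_left a2 hC0.le) a3 (by positivity)
                  (by positivity)
            _ = C * (2 ^ (N * J) * 2 ^ ((E + e) * J) * 2 ^ (j * ((r + e) * J))) := by ring
            _ ≤ C * 2 ^ (B * J) := by
                rw [← Real.rpow_add (by norm_num), ← Real.rpow_add (by norm_num)]
                refine mul_le_mul_of_nonneg_left ?_ hC0.le
                refine Real.rpow_le_rpow_of_exponent_le (by norm_num) ?_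
                have := mul_le_mul_of_nonneg_right (le_abs_self N) hJ0
                rw [hB]
                linarith
        have h4 := Int.floor_le ((2 : ℝ) ^ (N * J) * o)
        have h5 := Int.lt_floor_add_one ((2 : ℝ) ^ (N * J) * o)
        have h6 := abs_le.1 h3
        rw [abs_le]
        constructor <;> nlinarith [h6.1, h6.2])
    refine h1.trans ?_
    have h2 : 2 * ((C + 1) * 2 ^ (B * J)) + 1 ≤ (2 * (C + 1) + 1) * 2 ^ (B * J) := by linarith
    refine h2.trans ?_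
    rw [← exp_p2]
    calc (2 * (C + 1) + 1) * Real.exp (B * J * Real.log 2)
        = Real.exp (Real.log (2 * (C + 1) + 1)) * Real.exp (B * J * Real.log 2) := by
          rw [Real.exp_log (by positivity)]
      _ = Real.exp (Real.log (2 * (C + 1) + 1) + B * J * Real.log 2) := (Real.exp_add _ _).symm
      _ ≤ Real.exp (M * J) := by
          refine Real.exp_le_exp.2 ?_
          have := mul_le_mul_of_nonneg_right hM1 hJ0
          nlinarith [hJ₁.trans hJ1]
  refine ⟨_, ⟨hcnt, V, z, z', G, ?_, fun ω _ => rfl⟩, hcnt⟩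
  exact (LbP.of hlb).mono (Finset.Subset.refl _) hKM le_rfl

end Pool.V0F
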