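import Pool.Agent.H3.V0F.Attu
import Pool.Agent.H91.V0F.Exj

/-!
# Labels of the target with a gradient exponent, in the form `AttG`

`AttUQ.attG`: the property `AttUQ` gives labels of the target (`AttG`) at all windows of `G` near the
window, with one margin for the radius and for the gradient exponent.
-/

set_option autoImplicit false

namespace Pool.V0F

open Finset Real MvPolynomial MeasureTheory
open Pool.Agent.H49.Ent Pool.Agent.H32.Dense Pool.STK Pool.KA Pool.KSAT Pool.K2S Pool.PB Pool.GEN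
open Pool.S6C Pool.GRD Pool.RCD Pool.LA91 Pool.PKG

theorem LbU.attG {m : ℕ} {S : PCl m} {I : Finset (Fin m)} {k : Fin m} {w p rk E : ℝ}
    (h : LbU S I k w p rk E) : AttG S I k w p rk E := h

/-- **Labels of the target with a gradient exponent**, with one margin near the window. -/
theorem AttUQ.attG {n : ℕ} {p : Unit} {k₀ : ℕ} {S : PCl n} {P : List (Fin n) × Fin n → ℝ → ℝ → ℝ}
    {θ : ℝ} {c : ℕ → Fin n} {Pt : ℝ → ℝ → ℝ} {r : ℝ → ℝ} {L T : ℕ → ℝ → ℝ → ℝ} {κ : ℕ → Kg}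
    {G : Set ℝ} {x : ℝ} (h : AttUQ p k₀ S P θ c Pt r L T κ G x) :
    ∃ e₁ : ℝ, 0 < e₁ ∧ ∀ w ∈ G, |w - x| ≤ e₁ → ∃ rk E : ℝ, 0 ≤ rk ∧ rk + e₁ ≤ 1 ∧ 0 ≤ E ∧
      E + L (n - 1) w w + e₁ ≤ 1 ∧
      AttG S ((range (n - 1)).image c) (c (n - 1)) w (L (n - 1) w w) rk E := by
  refine ⟨(1 / 2) ^ k₀, by positivity, fun w hw hwx => ?_⟩
  obtain ⟨rk, E, h1, h2, h3, h4, h5⟩ := h w hw hwx
  exact ⟨rk, E, h1, by linarith, h3, by linarith, h5⟩

end Pool.V0F
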