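import Pool.Agent.H3.V0F.Attq

/-!
# Labels of the target with a gradient exponent, with a margin uniform near the window

`attU_sub`: one subclass in which all the events have labels of the target of the radius
`L (n - 2) w w` and of gradients at most `2 ^ ((1 - c / 2 - P w w) J)` at all good windows `w` before
the end `α` of the facts (defect `c`) at any window. `AttUQ`: a margin `(1/2) ^ k₀` at all windows of
`G` at distance at most `(1/2) ^ k₀`; `aePG_attU`: it holds at almost every window, in a subclass.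
-/

set_option autoImplicit false

namespace Pool.V0F

open Finset Real MvPolynomial MeasureTheory
open Pool.Agent.H49.Ent Pool.Agent.H32.Dense Pool.STK Pool.KA Pool.KSAT Pool.K2S Pool.PB Pool.GEN
open Pool.S6C Pool.GRD Pool.RCD Pool.LA91 Pool.PKG
open Pool.TOP (TopS)
open Pool.ONE (lst)

/-- **Labels** of the precision `p`, radius `rk` and gradient exponent `E`, up to `e J`. -/
def LbU {m : ℕ} (S : PCl m) (I : Finset (Fin m)) (k : Fin m) (w p rk E : ℝ) : Prop :=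
  ∀ e : ℝ, 0 < e → ∃ K : ℕ,
    Bas S (fun J F A => Lb F I k K ⌊(E + e) * J⌋₊ J ⌊w * J⌋₊ ⌊(rk + e) * J⌋₊ ⌊(p - e) * J⌋₊ A)

theorem LbU.sub {m : ℕ} {S S' : PCl m} (hs : ∀ (τ : ℝ) (J : ℕ) (F : Fam m J) (A : F.Ω → Prop),
    S'.St τ J F A → S.St τ J F A) {I : Finset (Fin m)} {k : Fin m} {w p rk E : ℝ}
    (h : LbU S I k w p rk E) : LbU S' I k w p rk E := by
  intro e he
  obtain ⟨K, hK⟩ := h e he
  exact ⟨K, hK.sub hs⟩

theorem LbU.g {m : ℕ} {S : PCl m} {I : Finset (Fin m)} {k : Fin m} {w p rk E : ℝ}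
    (h : LbU S I k w p rk E) (h0 : 0 ≤ rk) (h1 : rk < 1) (h2 : 0 ≤ E) (h3 : E + p < 1) :
    LbG S I k w p := ⟨rk, E, h0, h1, h2, h3, h⟩

variable {n : ℕ} {hn : 2 ≤ n} {S : PCl n} {P : ℝ → ℝ → ℝ} {rr : ℝ → ℝ}
  {P' : ℕ → List (Fin n) × Fin n → ℝ → ℝ → ℝ} {Λ : Finset (Fin n) → Fin n → ℝ → ℝ → ℝ}

/-- **One subclass** in which all the events have labels of the target at all good windows, with the
natural radius and the gradient exponent of the facts at any later window. -/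
theorem attU_sub (H : Pk hn S P rr P' Λ) (hTop : TopS n) (hF : FZX (n - 1)) :
    ∃ S' : PCl n, S'.Ne ∧
      (∀ (τ : ℝ) (J : ℕ) (F : Fam n J) (A : F.Ω → Prop), S'.St τ J F A → S.St τ J F A) ∧
      ∀ (o : Od n) (w : ℝ), w ∈ Gs P rr P' Λ o → ∀ x α Q c : ℝ, Fac hn S P rr P' o x α Q c →
        w < α → LbU S' (univ.erase (lst hn)) (lst hn) w (P w w) (LvL hn P P' o (n - 2) w w)
          (1 - c / 2 - P w w) := by
  classical
  obtain ⟨Φ, hΦ⟩ : ∃ Φ : ℕ × ℚ × ℚ × ℚ × ℚ → Stat n, Φ = fun x (J : ℕ) F A =>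
      Lb F (univ.erase (lst hn)) (lst hn) x.1 ⌊(x.2.1 : ℝ) * J⌋₊ J ⌊(x.2.2.1 : ℝ) * J⌋₊
        ⌊(x.2.2.2.1 : ℝ) * J⌋₊ ⌊(x.2.2.2.2 : ℝ) * J⌋₊ A := ⟨_, rfl⟩
  obtain ⟨I, hI⟩ : ∃ I : Set (ℕ × ℚ × ℚ × ℚ × ℚ), I = {x | ∃ C : ℝ, Bas S (fun J F A =>
    ∃ B : F.Ω → Prop, Sub B A ∧ Pe F.p A ≤ C * Pe F.p B ∧ Φ x J F B)} := ⟨_, rfl⟩
  obtain ⟨S', h1, h2, h3⟩ := her_extc (ι := {x // x ∈ I}) H.ne (fun x => Φ x.1)
    (fun x J F A B hB h => by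
      rw [hΦ] at h ⊢
      obtain ⟨V, z, z', G, h⟩ := h
      exact ⟨V, z, z', G, h.sub hB⟩) (fun x => by
      obtain ⟨x, hx⟩ := x
      rw [hI] at hx
      exact hx)
  refine ⟨S', h1, h2, fun o w hw x α Q c F hwα e he => ?_⟩
  obtain ⟨hE0, hc0, h4⟩ := tgt_lbU H hTop hF hw F hwα
  obtain ⟨-, hwu, hu⟩ := gs_full H hTop hF hw
  obtain ⟨α₀, Q₀, c₀, F₀⟩ := H.fac hTop hF hw
  have hw0 := F₀.g0
  have hw1 := F₀.g1
  obtain ⟨E, hE⟩ : ∃ E, E = 1 - c / 2 - P w w := ⟨_, rfl⟩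
  obtain ⟨u, hue⟩ : ∃ u, u = LvL hn P P' o (n - 2) w w := ⟨_, rfl⟩
  rw [← hE] at hE0 h4 ⊢
  rw [← hue] at hwu hu h4 ⊢
  obtain ⟨E', hE1, hE2⟩ := exists_rat_btwn (show E < E + e by linarith)
  obtain ⟨u', hu1, hu2⟩ := exists_rat_btwn (show u < u + e by linarith)
  obtain ⟨v, hv0, hvw, h5⟩ := h4 (e / 2) (half_pos he)
  obtain ⟨w₁, hw₁, hw₁'⟩ := exists_rat_btwn hvw
  obtain ⟨s, hs1, hs2⟩ := exists_rat_btwn (show P w w - e < P w w - e / 2 by linarith)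
  obtain ⟨K, C, hC, h6⟩ := h5 w₁ hw₁.le hw₁'.le
  have hmem : (K, E', w₁, u', s) ∈ I := by
    rw [hI]
    refine ⟨C, Bas.mono 0 h6 ?_⟩
    rintro J _ F A ⟨B, hB, hP, V, z, z', G, h⟩
    have hJ0 : (0 : ℝ) ≤ J := Nat.cast_nonneg J
    refine ⟨B, hB, hP, ?_⟩
    rw [hΦ]
    exact ⟨V, z, z', G, h.mono (Finset.Subset.refl _) le_rfl
      (Nat.floor_le_floor (mul_le_mul_of_nonneg_right hE1.le hJ0))
      (Nat.floor_le_floor (mul_le_mul_of_nonneg_right hu1.le hJ0))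
      (Nat.floor_le_floor (mul_le_mul_of_nonneg_right hs2.le hJ0))⟩
  refine ⟨K, Bas.mono 0 (h3 ⟨_, hmem⟩) ?_⟩
  intro J _ F A hG
  rw [hΦ] at hG
  have hJ0 : (0 : ℝ) ≤ J := Nat.cast_nonneg J
  obtain ⟨V, z, z', G, h7⟩ := Pool.GEN.Lb.win hG
    (Nat.floor_le_floor (mul_le_mul_of_nonneg_right hw₁'.le hJ0)) (fl_le hw1.le J)
  exact ⟨V, z, z', G, h7.mono (Finset.Subset.refl _) le_rfl
      (Nat.floor_le_floor (mul_le_mul_of_nonneg_right hE2.le hJ0))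
      (Nat.floor_le_floor (mul_le_mul_of_nonneg_right hu2.le hJ0))
      (Nat.floor_le_floor (mul_le_mul_of_nonneg_right hs1.le hJ0))⟩

/-- **Labels of the target with a gradient exponent**, with a margin which is the same at all
windows of `G` near the window. -/
def AttUQ {n : ℕ} (_ : Unit) (k₀ : ℕ) (S : PCl n) (_ : List (Fin n) × Fin n → ℝ → ℝ → ℝ) (_ : ℝ)
    (c : ℕ → Fin n) (_ : ℝ → ℝ → ℝ) (_ : ℝ → ℝ) (L _ : ℕ → ℝ → ℝ → ℝ) (_ : ℕ → Kg)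
    (G : Set ℝ) (x : ℝ) : Prop :=
  ∀ w ∈ G, |w - x| ≤ (1 / 2) ^ k₀ → ∃ rk E : ℝ, 0 ≤ rk ∧ rk ≤ 1 - (1 / 2) ^ k₀ ∧ 0 ≤ E ∧
    E + L (n - 1) w w ≤ 1 - (1 / 2) ^ k₀ ∧
    LbU S ((range (n - 1)).image c) (c (n - 1)) w (L (n - 1) w w) rk E

theorem her_attU (n : ℕ) : HerQ (AttUQ : PropG n Unit) := by
  intro p k₀ S S' P θ c Pt r L T κ G x hs h w hw hwx
  obtain ⟨rk, E, h1, h2, h3, h4, h5⟩ := h w hw hwx
  exact ⟨rk, E, h1, h2, h3, h4, h5.sub hs⟩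

/-- **It holds at almost every window.** -/
theorem aePG_attU (n : ℕ) : AePG n (AttUQ : PropG n Unit) := by
  intro hn S P r P' Λ PB PQ H hTop hF o G hG hGs
  obtain ⟨S', h1, h2, h3⟩ := attU_sub H.toPk hTop hF
  refine ⟨S', h1, h2, ?_⟩
  filter_upwards [pt_near G] with g h4 hg κ _ _
  obtain ⟨α, Q, c, F⟩ := H.toPk.fac hTop hF (hGs hg)
  have hgα := F.gα
  have hα1 := F.α1
  have hc0 : 0 < c := (tht_pos o.2).trans F.thc
  obtain ⟨q₁, hq₁, h5⟩ := h4 hg 1 1 one_pos one_pos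
  obtain ⟨q, hq⟩ : ∃ q, q = min (q₁ / 2) ((α - g) / 4) := ⟨_, rfl⟩
  have hq0 : 0 < q := by
    rw [hq]
    exact lt_min (by linarith) (by linarith)
  have hqq : q < q₁ := by
    rw [hq]
    exact (min_le_left _ _).trans_lt (by linarith)
  have hqα : q ≤ (α - g) / 4 := by
    rw [hq]
    exact min_le_right _ _
  obtain ⟨x', hx', hx1, hx2⟩ := h5 q (g + q) hq0 hqq (by
    rw [add_sub_cancel_left, abs_of_pos hq0, one_mul])
  obtain ⟨-, hu0, hu1⟩ := gs_full H.toPk hTop hF (hGs hx')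
  obtain ⟨α₁, Q₁, c₁, F₁⟩ := H.toPk.fac hTop hF (hGs hx')
  have hx1' := F₁.g1
  obtain ⟨k₀, hk₀⟩ := exists_pow_lt_of_lt_one (show 0 < min (x' - g)
    (min (1 - LvL hn P P' o (n - 2) x' x') (c / 2)) from
    lt_min (by linarith) (lt_min (by linarith) (by linarith))) (show (1 / 2 : ℝ) < 1 by norm_num)
  have e1 : (1 / 2 : ℝ) ^ k₀ < x' - g := hk₀.trans_le (min_le_left _ _)
  have e2 : (1 / 2 : ℝ) ^ k₀ < 1 - LvL hn P P' o (n - 2) x' x' :=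
    hk₀.trans_le ((min_le_right _ _).trans (min_le_left _ _))
  have e3 : (1 / 2 : ℝ) ^ k₀ < c / 2 :=
    hk₀.trans_le ((min_le_right _ _).trans (min_le_right _ _))
  refine ⟨k₀, fun w hw hwx => ?_⟩
  obtain ⟨hwl, hwr⟩ := abs_le.1 hwx
  obtain ⟨α₂, Q₂, c₂, F₂⟩ := H.toPk.fac hTop hF (hGs hw)
  have hw0 := F₂.g0
  have hwx' : w ≤ x' := by linarith
  have hwα : w < α := by linarith
  obtain ⟨hE0, -, -⟩ := tgt_lbU H.toPk hTop hF (hGs hw) F hwα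
  obtain ⟨-, hwu, -⟩ := gs_full H.toPk hTop hF (hGs hw)
  rw [img_lst, cc_top, lvL_last]
  refine ⟨LvL hn P P' o (n - 2) w w, 1 - c / 2 - P w w, hw0.le.trans hwu, ?_, hE0, by linarith,
    h3 o w (hGs hw) g α Q c F hwα⟩
  have h6 := (H.toPkT.lawL o (n - 2)).mono hw0.le le_rfl hwx' hwx' le_rfl hx1'.le
  linarith

/-- The uniform form gives the form at each window near `x`. -/
theorem AttUQ.g {n : ℕ} {p : Unit} {k₀ : ℕ} {S : PCl n} {P : List (Fin n) × Fin n → ℝ → ℝ → ℝ}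
    {θ : ℝ} {c : ℕ → Fin n} {Pt : ℝ → ℝ → ℝ} {r : ℝ → ℝ} {L T : ℕ → ℝ → ℝ → ℝ} {κ : ℕ → Kg}
    {G : Set ℝ} {x : ℝ} (h : AttUQ p k₀ S P θ c Pt r L T κ G x) {w : ℝ} (hw : w ∈ G)
    (hwx : |w - x| ≤ (1 / 2) ^ k₀) :
    LbG S ((range (n - 1)).image c) (c (n - 1)) w (L (n - 1) w w) := by
  obtain ⟨rk, E, h1, h2, h3, h4, h5⟩ := h w hw hwx
  have : (0 : ℝ) < (1 / 2) ^ k₀ := by positivity
  exact h5.g h1 (by linarith) h3 (by linarith)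

end Pool.V0F
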