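import Pool.Agent.H3.V0F.Attq
import Pool.Agent.H44.V0F.S3
import Pool.Agent.H83.OWN.Shf
import Pool.Agent.H92.GN.Prod
import Pool.Agent.H68.OWN.Npl

/-!
# No look-ahead for the target

`few0_X`: the digits of a coordinate to the precision of its closed labels are few bits given the
exact other coordinates. `t_nla`: given the exact positions of the other coordinates, the record at
`v` does not see the digits of the target behind its natural ones, at almost every window.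
-/

set_option autoImplicit false

namespace Pool.V0F

open Finset Real MvPolynomial
open Pool.Agent.H49.Ent Pool.Agent.H32.Dense Pool.STK Pool.KA Pool.KSAT Pool.K2S Pool.PB Pool.GEN
open Pool.S6C Pool.GRD Pool.RCD Pool.LA91 Pool.PKG Pool.OWN83
open Pool.TOP (TopS)
open Pool.ONE (lst)
open Pool.UNJ (ceI)

variable {m J : ℕ}

/-- **The coordinate `k` on a leaf**, at the same time, is a Lipschitz function of the others. -/
theorem lb_crd {F : Fam m J} {I : Finset (Fin m)} {k : Fin m} {K e r w ρ P : ℕ}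
    {A : F.Ω → Prop} {V : Type} {z : PtT F → V} {z' : LnT F → V}
    {G : V → MvPolynomial (Option (Fin m)) ℝ} (h : LbOK F I k K e r w ρ P A z z' G)
    {ω ω' : F.Ω} (hω : A ω) (hω' : A ω') (hz : z' (slam F w ω) = z' (slam F w ω'))
    (ht : F.t ω = F.t ω') {δ : ℝ} (hδ0 : 0 ≤ δ) (hδ : δ ≤ 1 / 2 ^ ρ)
    (hI : ∀ i ∈ I, |F.x ω i - F.x ω' i| ≤ δ) :
    |F.x ω k - F.x ω' k| ≤ 2 / 2 ^ P + 2 ^ e * (m * δ) := by
  classical
  have h1 := h.pos ω hω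
  have h2 := h.pos ω' hω'
  obtain ⟨v, hv⟩ : ∃ v, v = z' (slam F w ω) := ⟨_, rfl⟩
  rw [← hz, ← hv] at h2
  rw [← hv] at h1
  obtain ⟨b, hb⟩ : ∃ b : Option (Fin m) → ℝ, b = fun o => match o with
      | none => F.t ω
      | some k => if k ∈ I then F.x ω' k else F.x ω k := ⟨_, rfl⟩
  have e1 : eval (bt F ω') (G v) = eval b (G v) := by
    refine h.dep v _ _ ?_ fun k hk => ?_
    · rw [hb]
      exact ht.symm
    · rw [hb]
      simp only [if_pos hk]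
      rfl
  have hbd : ∀ o, |b o - bt F ω o| ≤ δ := by
    intro o
    rw [hb]
    rcases o with _ | k
    · simp only [bt, sub_self, abs_zero]
      exact hδ0
    · simp only [bt]
      by_cases hk : k ∈ I
      · rw [if_pos hk, abs_sub_comm]
        exact hI k hk
      · rw [if_neg hk, sub_self, abs_zero]
        exact hδ0
  have h3 := mvσ (G v) (bt F ω) b (2 ^ e) (fun y hy i => by
    have := h.lip ω hω y (fun o => ((hy o).trans (hbd o)).trans hδ) i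
    rwa [← hv] at this)
  have h4 : ∑ o, |b o - bt F ω o| ≤ m * δ := by
    rw [Fintype.sum_option]
    have a1 : |b none - bt F ω none| = 0 := by
      rw [hb]
      simp [bt]
    rw [a1, zero_add]
    calc ∑ k : Fin m, |b (some k) - bt F ω (some k)| ≤ ∑ _k : Fin m, δ :=
          Finset.sum_le_sum fun k _ => hbd (some k)
      _ = m * δ := by rw [Finset.sum_const, Finset.card_univ, Fintype.card_fin, nsmul_eq_mul]
  have h5 := h3.trans (mul_le_mul_of_nonneg_left h4 (by positivity))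
  rw [e1] at h2
  have e2 : (2 : ℝ) / 2 ^ P = 1 / 2 ^ P + 1 / 2 ^ P := by ring
  rw [e2]
  rw [abs_le] at h1 h2 h5 ⊢
  constructor <;> linarith [h1.1, h1.2, h2.1, h2.2, h5.1, h5.2]

/-- Equal digits. -/
theorem abs_of_floor {q : ℕ} {a b : ℝ} (h : ⌊(2 : ℝ) ^ q * a⌋ = ⌊(2 : ℝ) ^ q * b⌋) :
    |a - b| ≤ 1 / 2 ^ q := by
  have h1 := Int.floor_le ((2 : ℝ) ^ q * a)
  have h2 := Int.lt_floor_add_one ((2 : ℝ) ^ q * a)
  have h3 := Int.floor_le ((2 : ℝ) ^ q * b)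
  have h4 := Int.lt_floor_add_one ((2 : ℝ) ^ q * b)
  rw [h] at h1 h2
  rw [le_div_iff₀ (by positivity), abs_eq_max_neg]
  have hq : (0 : ℝ) < 2 ^ q := by positivity
  rcases le_total (a - b) (-(a - b)) with h5 | h5
  · rw [max_eq_right h5]
    nlinarith
  · rw [max_eq_left h5]
    nlinarith

/-- Digits of near numbers. -/
theorem floor_of_abs {q : ℕ} {a b R : ℝ} (h : |a - b| ≤ R) :
    |⌊(2 : ℝ) ^ q * a⌋ - ⌊(2 : ℝ) ^ q * b⌋| ≤ ((⌈(2 : ℝ) ^ q * R⌉₊ + 1 : ℕ) : ℤ) := by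
  refine Pool.OWN68.floor_sub_le ?_
  rw [← mul_sub, abs_mul, abs_of_pos (by positivity)]
  exact (mul_le_mul_of_nonneg_left h (by positivity)).trans (Nat.le_ceil _)

/-- **The digits of the coordinate** to the precision of its closed labels are few bits given the
exact other coordinates and the record. -/
theorem few0_X {S : PCl m} {I : Finset (Fin m)} {k : Fin m} {v' v p : ℝ}
    (hpos : ∀ (τ : ℝ) (J : ℕ) (F : Fam m J) (A : F.Ω → Prop), S.St τ J F A → 0 < Pe F.p A)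
    (h : LbG S I k v' p) (hv' : v' ≤ v) (hv : v ≤ 1) (hp : 0 ≤ p) :
    Few0 S (fun J F => ptr F J) (vg v) (fun J F ω => (ceI I (fun _ => J) (F.x ω), F.W ω))
      (Qt.fn (fun J F ω => F.X ⌊p * J⌋₊ ω k)) := by
  classical
  obtain ⟨rk, E, hr0, hr1, hE0, hE, hlab⟩ := h
  intro c hc
  obtain ⟨e, he⟩ : ∃ e : ℝ, e = min (c / 4) (1 - rk) := ⟨_, rfl⟩
  have he0 : 0 < e := by
    rw [he]
    exact lt_min (by linarith) (by linarith)
  have hec : e ≤ c / 4 := by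
    rw [he]
    exact min_le_left _ _
  have her : e ≤ 1 - rk := by
    rw [he]
    exact min_le_right _ _
  obtain ⟨K₁, hK₁⟩ := hlab e he0
  have hl2 : 0 < Real.log 2 := Real.log_pos one_lt_two
  have hl2' : Real.log 2 ≤ 1 := by
    have := Real.log_le_sub_one_of_pos (show (0 : ℝ) < 2 by norm_num)
    linarith
  obtain ⟨J₁, hJ₁⟩ := exists_nat_ge (Real.log (2 * m + 15) / (c / 2))
  refine ⟨1, one_pos, fun K => Bas.mono J₁ (hK₁.and (pos_bas hpos)) ?_⟩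
  rintro J hJ F A ⟨⟨V, z, z', G, hl⟩, hA⟩ u hu
  have hJ0 : (0 : ℝ) ≤ J := Nat.cast_nonneg J
  have hJ1 : Real.log (2 * m + 15) ≤ c / 2 * J := by
    have h1 : (J₁ : ℝ) ≤ J := by exact_mod_cast hJ
    have h2 := hJ₁.trans h1
    rw [div_le_iff₀ (by linarith)] at h2
    linarith
  have hq'l : IsLaw (Pool.Agent.H49.Ent.cond F.p A True) := isLaw_cond F.isLaw hA
  obtain ⟨φ, hφ⟩ := vg_mono hv' hv J F
  refine ⟨V, fun ω => z' (vg v' J F ω), ⟨⟨z, fun ω hω => ?_⟩, fun x => z' (φ x), fun ω _ => ?_⟩,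
    ?_⟩
  · show z' (slam F ⌊v' * J⌋₊ ω) = z (ptr F J ω)
    exact (hl.cls ω hω).symm
  · show z' (vg v' J F ω) = _
    rw [hφ ω]
  have hm0 : (0 : ℝ) ≤ m := Nat.cast_nonneg m
  obtain ⟨R, hR⟩ : ∃ R : ℝ, R = 2 / 2 ^ ⌊(p - e) * J⌋₊ + 2 ^ ⌊(E + e) * J⌋₊ * (m * (1 / 2 ^ J)) :=
    ⟨_, rfl⟩
  have hx : (1 : ℝ) ≤ 2 ^ (e * J) := Real.one_le_rpow (by norm_num) (by positivity)
  have hq : (2 : ℝ) ^ ⌊p * J⌋₊ ≤ 2 ^ (p * J) := p2_le (by positivity)
  have hRb : 2 ^ ⌊p * (J : ℝ)⌋₊ * R ≤ (4 + m) * 2 ^ (e * J) := by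
    have a1 : (2 : ℝ) / 2 ^ ⌊(p - e) * J⌋₊ ≤ 4 * 2 ^ (-((p - e) * J)) := by
      have h6 : (p - e) * J ≤ ⌊(p - e) * J⌋₊ + 1 := (Nat.lt_floor_add_one _).le
      have h7 : (2 : ℝ) ^ ((p - e) * J) ≤ 2 ^ ((⌊(p - e) * J⌋₊ : ℝ) + 1) :=
        Real.rpow_le_rpow_of_exponent_le (by norm_num) h6
      rw [Real.rpow_add (by norm_num), Real.rpow_natCast, Real.rpow_one] at h7
      rw [div_le_iff₀ (by positivity), Real.rpow_neg (by norm_num)]
      have h8 : (0 : ℝ) < 2 ^ ((p - e) * J) := Real.rpow_pos_of_pos (by norm_num) _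
      rw [mul_assoc, ← div_eq_inv_mul, ← mul_div_assoc, le_div_iff₀ h8]
      linarith
    have a2 : (2 : ℝ) ^ ⌊(E + e) * J⌋₊ ≤ 2 ^ ((E + e) * J) := p2_le (by positivity)
    have a3 : (2 : ℝ) ^ (p * J) * 2 ^ (-((p - e) * J)) = 2 ^ (e * J) := by
      rw [← Real.rpow_add (by norm_num)]
      congr 1
      ring
    have a4 : (2 : ℝ) ^ (p * J) * (2 ^ ((E + e) * J) * (1 / 2 ^ J)) ≤ 2 ^ (e * J) := by
      rw [one_div, ← Real.rpow_natCast, ← Real.rpow_neg (by norm_num),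
        ← Real.rpow_add (by norm_num), ← Real.rpow_add (by norm_num)]
      refine Real.rpow_le_rpow_of_exponent_le (by norm_num) ?_
      nlinarith
    calc 2 ^ ⌊p * (J : ℝ)⌋₊ * R ≤ 2 ^ (p * J) * R := by
          refine mul_le_mul_of_nonneg_right hq ?_
          rw [hR]
          positivity
      _ ≤ 2 ^ (p * J) * (4 * 2 ^ (-((p - e) * J)) + 2 ^ ((E + e) * J) * (m * (1 / 2 ^ J))) := by
          refine mul_le_mul_of_nonneg_left ?_ (by positivity)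
          rw [hR]
          exact add_le_add a1 (mul_le_mul_of_nonneg_right a2 (by positivity))
      _ = 4 * (2 ^ (p * J) * 2 ^ (-((p - e) * J))) +
            m * (2 ^ (p * J) * (2 ^ ((E + e) * J) * (1 / 2 ^ J))) := by ring
      _ ≤ 4 * 2 ^ (e * J) + m * 2 ^ (e * J) := by
          rw [a3]
          linarith [mul_le_mul_of_nonneg_left a4 hm0]
      _ = _ := by ring
  refine (Pool.OWN68.CH_pair (D := ⌈(2 : ℝ) ^ ⌊p * (J : ℝ)⌋₊ * R⌉₊ + 1) hq'l u _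
    fun ω ω' hω hω' e1 => ?_).trans ?_
  · have hAω := of_cond_pos hω
    have hAω' := of_cond_pos hω'
    simp only [Prod.mk.injEq] at e1
    obtain ⟨e2, e3, e4⟩ := e1
    rw [hu ω hAω, hu ω' hAω']
    refine floor_of_abs ?_
    rw [hR]
    have hT : F.T ω = F.T ω' := (Prod.ext_iff.1 e4).1
    refine lb_crd hl hAω hAω' e2 (by
      show (F.T ω : ℝ) / 2 ^ J = (F.T ω' : ℝ) / 2 ^ J
      rw [hT]) (by positivity) (inv_mono ?_) fun i hi => ?_
    · refine Nat.floor_le_of_le ?_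
      nlinarith
    · have h9 := congrFun e3 i
      unfold ceI at h9
      rw [if_pos hi, if_pos hi] at h9
      exact abs_of_floor h9
  · have h1 : (⌈(2 : ℝ) ^ ⌊p * (J : ℝ)⌋₊ * R⌉₊ : ℝ) ≤ (4 + m) * 2 ^ (e * J) + 1 := by
      have h2 := Nat.ceil_lt_add_one (show 0 ≤ (2 : ℝ) ^ ⌊p * (J : ℝ)⌋₊ * R by
        rw [hR]
        positivity)
      linarith
    have h3 : 2 * (((⌈(2 : ℝ) ^ ⌊p * (J : ℝ)⌋₊ * R⌉₊ + 1 : ℕ) : ℝ)) + 1 ≤
        (2 * m + 15) * 2 ^ (e * J) := by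
      push_cast
      nlinarith
    refine (Real.log_le_log (by positivity) h3).trans ?_
    rw [Real.log_mul (by positivity) (by positivity), Real.log_rpow (by norm_num)]
    have h4 : e * J * Real.log 2 ≤ c / 4 * J := by
      calc e * J * Real.log 2 ≤ e * J * 1 := mul_le_mul_of_nonneg_left hl2' (by positivity)
        _ ≤ c / 4 * J := by
          rw [mul_one]
          exact mul_le_mul_of_nonneg_right hec hJ0
    have h5 : 0 ≤ c / 4 * J := by positivity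
    linarith

/-- The number of values is at most the number of values of the exact point. -/
theorem exs_X {S : PCl m} {M : ℝ}
    (hM : Bas S (fun J F A => (cnt F.p (ptr F J) A : ℝ) ≤ Real.exp (M * J))) {k : Fin m} {p : ℝ}
    (hp : p ≤ 1) : Exs S (Qt.fn (fun (J : ℕ) (F : Fam m J) ω => F.X ⌊p * J⌋₊ ω k)) := by
  intro e _
  refine ⟨0, M, Bas.mono 0 hM ?_⟩
  intro J _ F A h
  refine ⟨_, fun ω _ => rfl, le_trans ?_ h⟩
  obtain ⟨φ, hφ⟩ := ptr_coarse F (fl_le hp J)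
  have e1 : (fun ω => F.X ⌊p * J⌋₊ ω k) = fun ω => (φ (ptr F J ω)).1 k := by
    funext ω
    rw [← hφ ω]
    rfl
  show (cnt F.p (fun ω => F.X ⌊p * J⌋₊ ω k) A : ℝ) ≤ _
  rw [e1]
  exact_mod_cast cnt_comp_le F.p (ptr F J) (fun ω => (φ (ptr F J ω)).1 k) (A := A)
    (fun x => (φ x).1 k) fun ω _ _ => rfl

/-- Fewer digits are a function of more digits. -/
theorem X_coarse (F : Fam m J) (k : Fin m) {r r' : ℕ} (h : r ≤ r') {ω ω' : F.Ω}
    (he : F.X r' ω k = F.X r' ω' k) : F.X r ω k = F.X r ω' k := by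
  have key : ∀ ω, F.X r ω k = F.X r' ω k / 2 ^ (r' - r) := by
    intro ω
    have h1 : (2 : ℝ) ^ r * F.x ω k = (2 ^ r' * F.x ω k) / ((2 ^ (r' - r) : ℕ) : ℝ) := by
      have : (2 : ℝ) ^ r' = 2 ^ r * 2 ^ (r' - r) := by
        rw [← pow_add]
        congr 1
        omega
      rw [this]
      push_cast
      field_simp
    change ⌊(2 : ℝ) ^ r * F.x ω k⌋ = ⌊(2 : ℝ) ^ r' * F.x ω k⌋ / 2 ^ (r' - r)
    rw [h1, Int.floor_div_natCast]
    push_cast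
    rfl
  rw [key ω, key ω', he]

/-- The quantities which are functions of each other. -/
theorem few_fn {S : PCl m} {k : Fin m} {v p p' : ℝ} {γ : ∀ J : ℕ, Fam m J → Type}
    {y : ∀ (J : ℕ) (F : Fam m J), F.Ω → γ J F}
    (hpos : ∀ (τ : ℝ) (J : ℕ) (F : Fam m J) (A : F.Ω → Prop), S.St τ J F A → 0 < Pe F.p A)
    (h : p' ≤ p) : Few S (fun J F => ptr F J) (vg v) y
      (Qt.fn (fun J F ω => F.X ⌊p * J⌋₊ ω k)) (Qt.fn (fun J F ω => F.X ⌊p' * J⌋₊ ω k)) := by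
  intro c hc
  refine ⟨1, one_pos, fun K => Bas.mono 0 (pos_bas hpos) ?_⟩
  intro J _ F A hA u u' hu hu'
  have hJ0 : (0 : ℝ) ≤ J := Nat.cast_nonneg J
  refine ⟨Unit, fun _ => (), ⟨⟨fun _ => (), fun _ _ => rfl⟩, fun _ => (), fun _ _ => rfl⟩, ?_⟩
  refine (Pool.OWN68.CH_pair (D := 0) (isLaw_cond F.isLaw hA) u' _
    fun ω ω' hω hω' e1 => ?_).trans ?_
  · have hAω := of_cond_pos hω
    have hAω' := of_cond_pos hω'
    simp only [Prod.mk.injEq] at e1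
    rw [hu' ω hAω, hu' ω' hAω']
    have h2 := e1.1
    rw [hu ω hAω, hu ω' hAω'] at h2
    have h3 := X_coarse F k (Nat.floor_le_floor (mul_le_mul_of_nonneg_right h hJ0)) h2
    show |F.X ⌊p' * J⌋₊ ω k - F.X ⌊p' * J⌋₊ ω' k| ≤ _
    rw [h3, sub_self, abs_zero]
    rfl
  · rw [Nat.cast_zero, mul_zero, zero_add, Real.log_one]
    positivity

/-- No digits. -/
theorem few0_zero {S : PCl m} {k : Fin m} {v : ℝ} {γ : ∀ J : ℕ, Fam m J → Type}
    {y : ∀ (J : ℕ) (F : Fam m J), F.Ω → γ J F}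
    (hpos : ∀ (τ : ℝ) (J : ℕ) (F : Fam m J) (A : F.Ω → Prop), S.St τ J F A → 0 < Pe F.p A)
    (hx : ∀ (τ : ℝ) (J : ℕ) (F : Fam m J) (A : F.Ω → Prop), S.St τ J F A → ∀ ω,
      |F.x ω k| ≤ 2) :
    Few0 S (fun J F => ptr F J) (vg v) y (Qt.fn (fun J F ω => F.X ⌊(0 : ℝ) * J⌋₊ ω k)) := by
  intro c hc
  have hx' : Bas S (fun _ F _ => ∀ ω, |F.x ω k| ≤ 2) :=
    ⟨1, one_pos, 0, fun J _ F A hA => hx 1 J F A hA⟩
  obtain ⟨J₁, hJ₁⟩ := exists_nat_ge (Real.log 13 / c)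
  refine ⟨1, one_pos, fun K => Bas.mono J₁ ((pos_bas hpos).and hx') ?_⟩
  rintro J hJ F A ⟨hA, hx2⟩ u hu
  refine ⟨Unit, fun _ => (), ⟨⟨fun _ => (), fun _ _ => rfl⟩, fun _ => (), fun _ _ => rfl⟩, ?_⟩
  refine (Pool.OWN68.CH_pair (D := 6) (isLaw_cond F.isLaw hA) u _
    fun ω ω' hω hω' e1 => ?_).trans ?_
  · have hAω := of_cond_pos hω
    have hAω' := of_cond_pos hω'
    rw [hu ω hAω, hu ω' hAω']
    show |F.X ⌊(0 : ℝ) * J⌋₊ ω k - F.X ⌊(0 : ℝ) * J⌋₊ ω' k| ≤ _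
    rw [zero_mul, Nat.floor_zero]
    have h1 : |F.x ω k - F.x ω' k| ≤ 4 := by
      have h2 := hx2 ω
      have h3 := hx2 ω'
      rw [abs_le] at h2 h3 ⊢
      constructor <;> linarith [h2.1, h2.2, h3.1, h3.2]
    have h4 := floor_of_abs (q := 0) h1
    have h5 : ⌈(2 : ℝ) ^ 0 * 4⌉₊ = 4 := by norm_num
    rw [h5] at h4
    refine h4.trans ?_
    norm_num
  · have h1 : (J₁ : ℝ) ≤ J := by exact_mod_cast hJ
    have h2 := hJ₁.trans h1
    rw [div_le_iff₀ hc] at h2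
    have e : (2 : ℝ) * ((6 : ℕ) : ℝ) + 1 = 13 := by norm_num
    rw [e]
    linarith

section

variable {P : ℝ → ℝ → ℝ} {G : Set ℝ}

theorem sup_mem (hG : IsClosed G) {x : ℝ} (hne : (G ∩ Set.Ioo 0 1 ∩ Set.Iic x).Nonempty) :
    sSup (G ∩ Set.Ioo 0 1 ∩ Set.Iic x) ∈ G ∧ 0 < sSup (G ∩ Set.Ioo 0 1 ∩ Set.Iic x) ∧
      sSup (G ∩ Set.Ioo 0 1 ∩ Set.Iic x) ≤ x ∧ sSup (G ∩ Set.Ioo 0 1 ∩ Set.Iic x) ≤ 1 := by
  have hbd : BddAbove (G ∩ Set.Ioo 0 1 ∩ Set.Iic x) := ⟨x, fun y hy => hy.2⟩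
  have h1 := csSup_mem_closure hne hbd
  have h2 : closure (G ∩ Set.Ioo 0 1 ∩ Set.Iic x) ⊆ G :=
    closure_minimal (fun y hy => hy.1.1) hG
  obtain ⟨y, hy⟩ := hne
  exact ⟨h2 h1, hy.1.2.1.trans_le (le_csSup hbd hy), csSup_le ⟨y, hy⟩ fun z hz => hz.2,
    csSup_le ⟨y, hy⟩ fun z hz => hz.1.2.2.le⟩

theorem lh_mono (hP : Pool.LEV.Law P) (hlow : ∀ w, 0 ≤ w → w ≤ 1 → 0 ≤ P w w)
    (hG : IsClosed G) {x y : ℝ} (hxy : x ≤ y) : lh P G x ≤ lh P G y := by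
  classical
  unfold lh
  by_cases hx : (G ∩ Set.Ioo 0 1 ∩ Set.Iic x).Nonempty
  · have hsub : G ∩ Set.Ioo 0 1 ∩ Set.Iic x ⊆ G ∩ Set.Ioo 0 1 ∩ Set.Iic y :=
      fun z hz => ⟨hz.1, le_trans hz.2 hxy⟩
    have hy := hx.mono hsub
    rw [if_pos hx, if_pos hy]
    obtain ⟨a1, a2, a3, a4⟩ := sup_mem hG hx
    obtain ⟨b1, b2, b3, b4⟩ := sup_mem hG hy
    have h1 := csSup_le_csSup (⟨y, fun z hz => hz.2⟩ : BddAbove _) hx hsub
    exact hP.mono a2.le le_rfl h1 h1 le_rfl b4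
  · rw [if_neg hx]
    split_ifs with hy
    · obtain ⟨b1, b2, b3, b4⟩ := sup_mem hG hy
      exact hlow _ b2.le b4
    · exact le_rfl

theorem lh_nonneg (hlow : ∀ w, 0 ≤ w → w ≤ 1 → 0 ≤ P w w) (hG : IsClosed G) (x : ℝ) :
    0 ≤ lh P G x := by
  classical
  unfold lh
  split_ifs with hy
  · obtain ⟨b1, b2, b3, b4⟩ := sup_mem hG hy
    exact hlow _ b2.le b4
  · exact le_rfl

theorem lh_le_one (hup : ∀ w, 0 ≤ w → w ≤ 1 → P w w ≤ 1) (hG : IsClosed G) (x : ℝ) :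
    lh P G x ≤ 1 := by
  classical
  unfold lh
  split_ifs with hy
  · obtain ⟨b1, b2, b3, b4⟩ := sup_mem hG hy
    exact hup _ b2.le b4
  · exact zero_le_one

/-- **The family of the digits of the target.** -/
theorem two_par {S : PCl m} {M : ℝ} {k : Fin m} {I : Finset (Fin m)}
    (hpos : ∀ (τ : ℝ) (J : ℕ) (F : Fam m J) (A : F.Ω → Prop), S.St τ J F A → 0 < Pe F.p A)
    (hM : Bas S (fun J F A => (cnt F.p (ptr F J) A : ℝ) ≤ Real.exp (M * J)))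
    (hx : ∀ (τ : ℝ) (J : ℕ) (F : Fam m J) (A : F.Ω → Prop), S.St τ J F A → ∀ ω,
      |F.x ω k| ≤ 2)
    (hG : IsClosed G) (hP : Pool.LEV.Law P) (hlow : ∀ w, 0 ≤ w → w ≤ 1 → 0 ≤ P w w)
    (hup : ∀ w, 0 ≤ w → w ≤ 1 → P w w ≤ 1) (hlab : ∀ w ∈ G, LbG S I k w (P w w)) :
    TwoParS S (fun J F => ptr F J) (fun J F ω => (ceI I (fun _ => J) (F.x ω), F.W ω)) 0
      (fun _ o => Qt.fn (fun J F ω => F.X ⌊lh P G o * J⌋₊ ω k)) 0 1 1 where
  exs _ o _ _ _ _ := exs_X hM (lh_le_one hup hG o)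
  row _ v o _ _ h3 _ _ := few_fn hpos (lh_mono hP hlow hG (by exact_mod_cast h3))
  chg _ v o _ _ _ _ _ := few_fn hpos le_rfl
  own w v _ _ h3 _ := by
    classical
    by_cases hv : (G ∩ Set.Ioo 0 1 ∩ Set.Iic (v : ℝ)).Nonempty
    · obtain ⟨a1, a2, a3, a4⟩ := sup_mem hG hv
      have e : lh P G v = P (sSup (G ∩ Set.Ioo 0 1 ∩ Set.Iic (v : ℝ)))
          (sSup (G ∩ Set.Ioo 0 1 ∩ Set.Iic (v : ℝ))) := by
        unfold lh
        rw [if_pos hv]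
      rw [e, add_zero]
      exact few0_X hpos (hlab _ a1) a3 h3.le (hlow _ a2.le a4)
    · have e : lh P G v = 0 := by
        unfold lh
        rw [if_neg hv]
      rw [e, add_zero]
      exact few0_zero hpos hx

end

/-- **(NLA)** No look-ahead for the target at almost every window. -/
theorem t_nla : NlaStmt := by
  intro n hn S P r P' Λ PB PQ H hTop hF o G hG hGs
  obtain ⟨al, g₀, s, d', e', K₁, N₁, hal, hg₀, hC⟩ := H.cl
  have hM : Bas S (fun J F A => (cnt F.p (ptr F J) A : ℝ) ≤ Real.exp ((4 * n + 1) * J)) :=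
    Bas.mono 0 hC.cnt fun J _ F A h => h J le_rfl
  obtain ⟨S₁, a1, a2, η, hη⟩ := rnum_ptr hC.ne hC.pos hM
  obtain ⟨S₂, b1, b2, b3⟩ := attE_sub (H.sub a1 a2).toPk hTop hF
  have hs2 : ∀ (τ : ℝ) (J : ℕ) (F : Fam n J) (A : F.Ω → Prop), S₂.St τ J F A → S.St τ J F A :=
    fun τ J F A h => a2 τ J F A (b2 τ J F A h)
  have hlow : ∀ w, 0 ≤ w → w ≤ 1 → 0 ≤ P w w := fun w h0 h1 =>
    h0.trans (H.toPk.tgs.low () w w h0 le_rfl h1)
  have hup : ∀ w, 0 ≤ w → w ≤ 1 → P w w ≤ 1 := fun w h0 h1 =>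
    H.toPk.tgs.up () w w h0 le_rfl h1
  have hx : ∀ (τ : ℝ) (J : ℕ) (F : Fam n J) (A : F.Ω → Prop), S₂.St τ J F A → ∀ ω,
      |F.x ω (lst hn)| ≤ 2 := by
    intro τ J F A h ω
    obtain ⟨-, -, -, -, h5, -⟩ := hC.mem τ J F A (hs2 τ J F A h)
    obtain ⟨⟨h6, h7⟩, h8, -, -⟩ := h5 ω (lst hn)
    have h9 := F.dir ω (lst hn)
    have h10 : F.t ω ≤ 1 := by
      unfold Fam.t
      rw [div_le_one (by positivity)]
      exact_mod_cast (F.tim ω).le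
    have h11 : 0 ≤ F.t ω := by
      unfold Fam.t
      positivity
    rw [abs_le] at h9 ⊢
    unfold Fam.x
    constructor <;> nlinarith
  have hpos : ∀ (τ : ℝ) (J : ℕ) (F : Fam n J) (A : F.Ω → Prop), S₂.St τ J F A → 0 < Pe F.p A :=
    fun τ J F A h => hC.pos τ J F A (hs2 τ J F A h)
  have htp := two_par (I := univ.erase (lst hn)) hpos (hM.sub hs2) hx hG (H.toPk.tgs.law ())
    hlow hup fun w hw => b3 o w (hGs hw)
  obtain ⟨S', c1, c2, c3⟩ := la_clsS (ι := Unit) b1 hpos (fun _ => ℤ)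
    (fun _ J F => PtT F) (fun _ J F => (Fin n → ℤ) × (ℕ × F.ζ)) (fun _ J F => ptr F J)
    (fun _ J F ω => (ceI (univ.erase (lst hn)) (fun _ => J) (F.x ω), F.W ω)) (fun _ => 0)
    (fun _ _ o => Qt.fn (fun J F ω => F.X ⌊lh P G o * J⌋₊ ω (lst hn))) (fun _ => 0) (fun _ => 1)
    (fun _ => 1) (fun _ => htp)
  obtain ⟨θ, hθ⟩ := c3 ()
  have htp' := htp.sub c2
  have hs' : ∀ (τ : ℝ) (J : ℕ) (F : Fam n J) (A : F.Ω → Prop), S'.St τ J F A → S.St τ J F A :=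
    fun τ J F A h => hs2 τ J F A (c2 τ J F A h)
  have hpos' : ∀ (τ : ℝ) (J : ℕ) (F : Fam n J) (A : F.Ω → Prop), S'.St τ J F A → 0 < Pe F.p A :=
    fun τ J F A h => hpos τ J F A (c2 τ J F A h)
  have hae := hθ.ae c1 hpos' (by norm_num) one_pos (fun w _ _ => ⟨η w, by
    rw [add_zero]
    exact ((hη w).sub b2).sub c2⟩) htp'
  refine ⟨S', c1, hs', ?_⟩
  filter_upwards [hae] with g h1 hg κ _ p
  obtain ⟨α, Q, c, F⟩ := H.toPk.fac hTop hF (hGs hg)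
  have hg0 := F.g0
  have hg1 := F.g1
  obtain ⟨r₀, hr₀, h2⟩ := h1 ⟨hg0, hg1⟩ (1 / (2 * ((p : ℝ) + 1))) (by positivity)
  obtain ⟨k₀, hk₀⟩ := exists_pow_lt_of_lt_one (show 0 < min r₀ (min g (1 - g)) from
    lt_min hr₀ (lt_min hg0 (by linarith))) (show (1 / 2 : ℝ) < 1 by norm_num)
  refine ⟨k₀, fun ρ hρ hρ1 w v o' w1 w2 w3 w4 => ?_⟩
  have e1 : ρ < r₀ := (hρ1.trans_lt hk₀).trans_le (min_le_left _ _)
  have e2 : ρ < g := (hρ1.trans_lt hk₀).trans_le ((min_le_right _ _).trans (min_le_left _ _))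
  have e3 : ρ < 1 - g := (hρ1.trans_lt hk₀).trans_le ((min_le_right _ _).trans (min_le_right _ _))
  have h3 := h2 ρ hρ e1 w v o' w1 w2 w3 w4
  have hw0 : (0 : ℝ) < w := by linarith
  have ho1 : (o' : ℝ) < 1 := by linarith
  obtain ⟨κ', hκ, e₀, he₀, hla⟩ := htp'.la hpos' hθ hw0 w2 w3 ho1 (by linarith)
    (1 / (2 * ((p : ℝ) + 1)) * ρ) (by positivity)
  refine ⟨κ', hκ, Bas.mono 0 (hla 0) ?_⟩
  intro J _ F' A hb V z V' z' hz hz'
  have hJ0 : (0 : ℝ) ≤ J := Nat.cast_nonneg J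
  rw [cc_top, lvL_last]
  rw [add_zero] at hb
  rw [add_zero] at hb
  refine (hb V z V' z' hz hz' _ _ (fun ω _ => rfl) (fun ω _ => rfl)).trans ?_
  refine add_le_add le_rfl (mul_le_mul_of_nonneg_right ?_ hJ0)
  have e4 : (1 : ℝ) / (p + 1) * ρ = 1 / (2 * ((p : ℝ) + 1)) * ρ + 1 / (2 * ((p : ℝ) + 1)) * ρ := by
    field_simp
    ring
  rw [e4]
  linarith

end Pool.V0F
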