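import Pool.Agent.H3.V0F.Lbe
import Pool.Agent.H18.D2G.Gch
import Pool.Agent.H9.GEN.PkJ
import Pool.Agent.H99.GEN.GrC
import Pool.Agent.H34.GEN.DiaA

/-!
# Labels of the target with a gradient exponent

`tgt_lb`: at a good window `w` and at windows a bit before it, a part of each event has closed labels
of the target over all the other coordinates, of the precision `P w w - e`, radius `u < 1` and
gradients at most `2 ^ (E J)`, where `E + P w w < 1`.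
-/

set_option autoImplicit false

namespace Pool.V0F

open Finset Real MvPolynomial
open Pool.Agent.H49.Ent Pool.Agent.H32.Dense Pool.STK Pool.KA Pool.KSAT Pool.K2S Pool.PB Pool.GEN
open Pool.S6C Pool.GRD Pool.RCD Pool.LA91 Pool.PKG
open Pool.ORD65 (LbS rz_cls)
open Pool.TOP (T2c TopS)
open Pool.GRW (bas_part)
open Pool.FRN (AttC)

theorem ex_ae {p : ℝ → Prop} {a b : ℝ} (hab : a < b) (h : ∀ᵐ t : ℝ, p t) :
    ∃ t, a < t ∧ t < b ∧ p t := by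
  by_contra hcon
  push Not at hcon
  have h1 : MeasureTheory.volume (Set.Ioo a b) ≤ MeasureTheory.volume {t : ℝ | ¬ p t} :=
    MeasureTheory.measure_mono fun t ht => hcon t ht.1 ht.2
  rw [show MeasureTheory.volume {t : ℝ | ¬ p t} = 0 from h, Real.volume_Ioo, nonpos_iff_eq_zero,
    ENNReal.ofReal_eq_zero] at h1
  linarith

variable {m : ℕ}

/-- A closed function at an earlier window. -/
theorem ful_win {S : PCl m} {I : Finset (Fin m)} {w w₁ u : ℝ} (h : Ful S I w u) (hw : w₁ ≤ w)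
    (hw1 : w ≤ 1) : Ful S I w₁ u := by
  intro ρ hρ
  refine Bas.mono 0 (h ρ hρ) ?_
  intro J _ F A hG V z z' hz
  obtain ⟨φ, hφ⟩ := vg_mono hw hw1 J F
  have e : ∀ ω, z' (slam F ⌊w₁ * J⌋₊ ω) = (fun x => z' (φ x)) (slam F ⌊w * J⌋₊ ω) := fun ω => by
    show z' (vg w₁ J F ω) = z' (φ (vg w J F ω))
    rw [hφ ω]
  have h1 := hG V z (fun x => z' (φ x)) fun ω hω => (hz ω hω).trans (e ω)
  simp only [← e] at h1
  exact h1

theorem t2c_le {S : PCl m} {k : Fin m} {α α' Q σ : ℝ} (h : T2c S k α Q σ) (hα : α' ≤ α) :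
    T2c S k α' Q σ := by
  intro K ε hε
  refine Bas.mono 0 (h K ε hε) ?_
  intro J _ F A hG a q s ha
  exact hG a q s (ha.trans (Nat.floor_le_floor (mul_le_mul_of_nonneg_right hα
    (Nat.cast_nonneg J))))

/-- The events have positive probability. -/
theorem pos_tm {S : PCl m} {C₀ : ℝ} (h : TmC S C₀) (τ : ℝ) (J : ℕ) (F : Fam m J)
    (A : F.Ω → Prop) (hS : S.St τ J F A) : 0 < Pe F.p A :=
  (h (max τ 1) J F A (lt_max_of_lt_right one_pos) (S.mono (le_max_left _ _) hS)).1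

/-- The numbers. -/
theorem num_tl {J P₁ s D : ℕ} {p σ h c e E w : ℝ} {q : ℕ} (hJ : (J : ℝ) * h ≥ D + 8)
    (hσ : p ≤ σ) (hh : 0 < h) (hc : 64 * h ≤ c) (he : 64 * h ≤ e) (hw : 64 * h ≤ w) (hwp : w ≤ p)
    (hE : E = σ + c / 2 - p) (hP : P₁ = ⌊(p - 4 * h) * J⌋₊) (hs : s = ⌈(σ + 5 * h) * J⌉₊ - P₁)
    (hq : (p - 2 * h) * J ≤ q) : P₁ + D ≤ q ∧ (σ + 5 * h) * J ≤ P₁ + s ∧
      w * J ≤ P₁ + 5 * h * J ∧
      (⌈(s : ℝ) + 3 * (5 * h) * J⌉₊ : ℝ) + h * J ≤ ⌊E * J⌋₊ ∧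
      (⌊(p - e) * J⌋₊ : ℝ) + h * J ≤ P₁ := by
  have hJ0 : (0 : ℝ) ≤ J := Nat.cast_nonneg J
  have hD0 : (0 : ℝ) ≤ D := Nat.cast_nonneg D
  have hp4 : 0 ≤ p - 4 * h := by linarith
  have f1 : (P₁ : ℝ) ≤ (p - 4 * h) * J := by
    rw [hP]
    exact Nat.floor_le (by positivity)
  have f2 : (p - 4 * h) * J - 1 < P₁ := by
    rw [hP]
    exact Nat.sub_one_lt_floor _
  have f3 : (σ + 5 * h) * J ≤ ⌈(σ + 5 * h) * J⌉₊ := Nat.le_ceil _
  have f4 : (⌈(σ + 5 * h) * J⌉₊ : ℝ) < (σ + 5 * h) * J + 1 := Nat.ceil_lt_add_one (by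
    have : 0 ≤ σ + 5 * h := by linarith
    positivity)
  have hpσ : (p - 4 * h) * J ≤ (σ + 5 * h) * J := mul_le_mul_of_nonneg_right (by linarith) hJ0
  have hPs : P₁ ≤ ⌈(σ + 5 * h) * J⌉₊ := by
    have : (P₁ : ℝ) ≤ ⌈(σ + 5 * h) * J⌉₊ := f1.trans (hpσ.trans f3)
    exact_mod_cast this
  have f5 : (s : ℝ) = ⌈(σ + 5 * h) * J⌉₊ - P₁ := by
    rw [hs, Nat.cast_sub hPs]
  refine ⟨?_, by rw [f5]; linarith, ?_, ?_, ?_⟩
  · have : ((P₁ + D : ℕ) : ℝ) ≤ q := by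
      push_cast
      nlinarith
    exact_mod_cast this
  · have : w * J ≤ p * J := mul_le_mul_of_nonneg_right hwp hJ0
    nlinarith
  · have g1 : (⌈(s : ℝ) + 3 * (5 * h) * J⌉₊ : ℝ) < s + 3 * (5 * h) * J + 1 :=
      Nat.ceil_lt_add_one (by positivity)
    have g2 : E * J - 1 < ⌊E * J⌋₊ := Nat.sub_one_lt_floor _
    have g3 : E * J = σ * J + c / 2 * J - p * J := by
      rw [hE]
      ring
    have g4 : 32 * h * J ≤ c / 2 * J := mul_le_mul_of_nonneg_right (by linarith) hJ0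
    nlinarith
  · rcases le_total 0 (p - e) with h1 | h1
    · have g1 : (⌊(p - e) * J⌋₊ : ℝ) ≤ (p - e) * J := Nat.floor_le (by positivity)
      have g2 : (p - e) * J ≤ (p - 64 * h) * J := mul_le_mul_of_nonneg_right (by linarith) hJ0
      nlinarith
    · have g1 : ⌊(p - e) * (J : ℝ)⌋₊ = 0 := Nat.floor_of_nonpos (mul_nonpos_of_nonpos_of_nonneg
        h1 hJ0)
      rw [g1, Nat.cast_zero]
      have g2 : 64 * h * J ≤ p * J := mul_le_mul_of_nonneg_right (by linarith) hJ0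
      nlinarith

end Pool.V0F

namespace Pool.V0F

open Finset Real MvPolynomial
open Pool.Agent.H49.Ent Pool.Agent.H32.Dense Pool.STK Pool.KA Pool.KSAT Pool.K2S Pool.PB Pool.GEN
open Pool.S6C Pool.GRD Pool.RCD Pool.LA91 Pool.PKG
open Pool.ORD65 (LbS rz_cls)
open Pool.TOP (T2c TopS)
open Pool.GRW (bas_part)
open Pool.FRN (AttC)
open Pool.JTN (TgP)
open Pool.ONE (lst)

variable {n : ℕ} {hn : 2 ≤ n} {S : PCl n} {P : ℝ → ℝ → ℝ} {rr : ℝ → ℝ}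
  {P' : ℕ → List (Fin n) × Fin n → ℝ → ℝ → ℝ} {Λ : Finset (Fin n) → Fin n → ℝ → ℝ → ℝ}

/-- **Closed labels of the target** at the precision `P w w - e`, positions only, with the facts at
a window `x`. -/
theorem tgt_pos (H : Pk hn S P rr P' Λ) (hTop : TopS n) (hF : FZX (n - 1)) {o : Od n} {w : ℝ}
    (hw : w ∈ Gs P rr P' Λ o) {x α Q c : ℝ} (F : Fac hn S P rr P' o x α Q c) (hwα : w < α)
    {h : ℝ} (hh : 0 < h) : ∃ v : ℝ, 0 < v ∧ v < w ∧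
      ∃ (K : ℕ) (C : ℝ), 0 < C ∧ Bas S (fun J F A => ∃ (B : F.Ω → Prop) (q : ℕ), Sub B A ∧
        Pe F.p A ≤ C * Pe F.p B ∧ (P w w - 2 * h) * J ≤ q ∧ (K ≤ q → ∃ (V : Type)
          (z : PtT F → V) (z' : LnT F → V) (G : V → MvPolynomial (Option (Fin n)) ℝ),
          ∃ B' : F.Ω → Prop, Sub B' B ∧ Pe F.p B ≤ K * Pe F.p B' ∧
          LbP F (univ.erase (lst hn)) (lst hn) K J ⌊v * J⌋₊ (q - K) B' z z' G)) := by
  classical
  obtain ⟨α₀, Q₀, c₀, F₀⟩ := H.fac hTop hF hw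
  have hw0 := F₀.g0
  have hw1 := F₀.g1
  obtain ⟨δ, hδ, hcon⟩ := Metric.continuousAt_iff.1 F₀.conP h hh
  obtain ⟨v, hv1, hv2, hv3⟩ := ex_ae (show max (w - δ) (w / 2) < w from
    max_lt (by linarith) (by linarith)) (H.attN o 0 0 le_rfl)
  have hvδ : w - δ < v := (le_max_left _ _).trans_lt hv1
  have hvw : w / 2 < v := (le_max_right _ _).trans_lt hv1
  have hv0 : 0 < v := by linarith
  have hatt : (v, v) ∈ AttC (P' o.2) := by
    have := hv3 (by linarith) (by linarith)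
    rwa [zero_add] at this
  have hPv : P w w - h < P v v := by
    have h1 := hcon (x := v) (by
      rw [Real.dist_eq, abs_lt]
      constructor <;> linarith)
    rw [Real.dist_eq, abs_lt] at h1
    linarith [h1.1]
  obtain ⟨K', K₁, hK₁, hbas⟩ := F.tgP H hv0 le_rfl (by linarith) hatt h hh
  have hclo := fun i => clo1 (i + 1) K'
  choose cst hcst1 hcst using hclo
  obtain ⟨D, hD⟩ : ∃ D : ℕ, D = (range n).sup cst := ⟨_, rfl⟩
  have hDi : ∀ i ≤ n - 1, cst i ≤ D := fun i hi => by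
    rw [hD]
    exact Finset.le_sup (f := cst) (mem_range.2 (by omega))
  refine ⟨v, hv0, hv2, D, K₁, hK₁, Bas.mono 0 hbas ?_⟩
  rintro J _ Fm A ⟨B, c', i, e', q, hBA, hPe, hi, hinj, hl, htop, hch, hq, -⟩
  have hJ0 : (0 : ℝ) ≤ J := Nat.cast_nonneg J
  refine ⟨B, q i, hBA, hPe, ?_, fun hDq => ?_⟩
  · refine le_trans ?_ hq
    exact mul_le_mul_of_nonneg_right (by linarith) hJ0
  obtain ⟨G₀, H₀, hok⟩ := hch
  have hne : ∀ l < i, c' l ≠ lst hn := fun l hl' => by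
    obtain ⟨j, hj, h1⟩ := hl l hl'
    rw [h1]
    exact cc_ne hn _ hj
  have hti : c' i = lst hn := htop.trans (cc_top hn _)
  have hInj : Pool.STAT.CLO.Inj c' (i + 1) := by
    intro l hl1 l' hl1' he
    rcases Nat.lt_succ_iff_lt_or_eq.1 hl1 with h1 | h1 <;>
      rcases Nat.lt_succ_iff_lt_or_eq.1 hl1' with h2 | h2
    · exact hinj h1 h2 he
    · rw [h2, hti] at he
      exact absurd he (hne l h1)
    · rw [h1, hti] at he
      exact absurd he.symm (hne l' h2)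
    · omega
  have hvJ : ⌊v * J⌋₊ ≤ J := fl_le (by linarith) J
  obtain ⟨z, z', P₂, B', hB'B, hPe', -, -, -, -, hlab⟩ := hcst i n J Fm c' (fun _ => K')
    ⌊v * J⌋₊ ⌊v * J⌋₊ e' q B G₀ H₀ le_rfl hvJ hInj (fun _ _ => le_rfl) hok
  have h3 := hlab i (Nat.lt_succ_self i) ((hDi i hi).trans hDq)
  rw [hti] at h3
  refine ⟨_, z, z', _, B', hB'B, hPe'.trans ?_, h3.mono (fun x hx => ?_) (hDi i hi) ?_⟩
  · exact mul_le_mul_of_nonneg_right (by exact_mod_cast hDi i hi) (Pe_nonneg Fm.isLaw B')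
  · obtain ⟨l, hl1, rfl⟩ := mem_image.1 hx
    exact mem_erase.2 ⟨hne l (mem_range.1 hl1), mem_univ _⟩
  · exact Nat.sub_le_sub_left (hDi i hi) _

theorem img_lst (hn : 2 ≤ n) (σ : Equiv.Perm (Fin (n - 1))) :
    (range (n - 1)).image (cc hn σ) = univ.erase (lst hn) := by
  ext i
  rw [mem_image, mem_erase]
  constructor
  · rintro ⟨l, hl, rfl⟩
    exact ⟨cc_ne hn _ (mem_range.1 hl), mem_univ _⟩
  · rintro ⟨hi, -⟩
    obtain ⟨l, hl, h3⟩ := cc_all hn σ hi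
    exact ⟨l, mem_range.2 hl, h3⟩

/-- **The base is full** behind its largest level. -/
theorem gs_full (H : Pk hn S P rr P' Λ) (hTop : TopS n) (hF : FZX (n - 1)) {o : Od n} {w : ℝ}
    (hw : w ∈ Gs P rr P' Λ o) : Ful S (univ.erase (lst hn)) w (LvL hn P P' o (n - 2) w w) ∧
      w ≤ LvL hn P P' o (n - 2) w w ∧ LvL hn P P' o (n - 2) w w < 1 := by
  obtain ⟨α, Q, c, F⟩ := H.fac hTop hF hw
  have hw0 := F.g0
  have hw1 := F.g1
  have hex := Pool.OWN72.gs_exa H hF hw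
  have hWv : w ∈ Wv Λ (Pool.OWN72.epo hn o) := hw.1.1
  obtain ⟨-, -, hg, hct⟩ := hWv
  have hmono := hg.mono H.lam hw1.le
  have e1 : LvL hn P P' o (n - 2) w w = vs Λ (Pool.OWN72.epo hn o) w (n - 1) := by
    have h1 := gs_lvl H hTop hF hw (l := n - 2) (by omega)
    rw [h1]
    congr 1
    omega
  refine ⟨?_, ?_, ?_⟩
  · have h1 := Pool.JMP45.ful_of H.tmc H.lam (Pool.OWN72.cc_epo (hn := hn) o) hw.1.1 hex
      (k := n - 1) le_rfl le_rfl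
    rw [img_lst, ← e1] at h1
    exact h1
  · rw [e1]
    exact le_vs H.lam _ hw1.le _
  · rw [LvL_lt o (by omega)]
    have h1 := F.le (n - 2) (by omega) w w hw0 le_rfl F.gα
    have h2 := F.thc
    have := tht_pos o.2
    linarith

/-- **Closed labels of the target** with a gradient exponent, on a part of each event, at the windows
a bit before `w`, with the facts at a window `x`. -/
theorem tgt_lbU (H : Pk hn S P rr P' Λ) (hTop : TopS n) (hF : FZX (n - 1)) {o : Od n} {w : ℝ}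
    (hw : w ∈ Gs P rr P' Λ o) {x α Q c : ℝ} (F : Fac hn S P rr P' o x α Q c) (hwα : w < α) :
      0 ≤ 1 - c / 2 - P w w ∧ 0 < c ∧
      ∀ e : ℝ, 0 < e → ∃ v : ℝ, 0 < v ∧ v < w ∧ ∀ w₁ : ℝ, v ≤ w₁ → w₁ ≤ w →
      ∃ (K : ℕ) (C : ℝ), 0 < C ∧ Bas S (fun J F A => ∃ B : F.Ω → Prop, Sub B A ∧
        Pe F.p A ≤ C * Pe F.p B ∧ Lb F (univ.erase (lst hn)) (lst hn) K
          ⌊(1 - c / 2 - P w w) * J⌋₊ J ⌊w₁ * J⌋₊ ⌊LvL hn P P' o (n - 2) w w * J⌋₊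
          ⌊(P w w - e) * J⌋₊ B) := by
  classical
  obtain ⟨α₀, Q₀, c₀, F₀⟩ := H.fac hTop hF hw
  obtain ⟨hful, hwu, hu1⟩ := gs_full H hTop hF hw
  obtain ⟨u, hu⟩ : ∃ u, u = LvL hn P P' o (n - 2) w w := ⟨_, rfl⟩
  rw [← hu] at hful hwu hu1 ⊢
  have hw0 := F₀.g0
  have hw1 := F₀.g1
  obtain ⟨p, hp⟩ : ∃ p, p = P w w := ⟨_, rfl⟩
  have hpw : w ≤ p := by
    rw [hp]
    exact H.tgs.low () w w hw0.le le_rfl hw1.le
  have hpQ : p ≤ Q := by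
    rw [hp]
    exact F.PQ w w hw0 le_rfl hwα
  have hc0 : 0 < c := (tht_pos o.2).trans F.thc
  have hQ1 := F.Q1
  rw [← hp]
  have hcE : 1 - c / 2 - p = 1 - c + c / 2 - p := by ring
  refine ⟨by linarith, hc0, fun e he => ?_⟩
  rw [hcE]
  obtain ⟨h, hh⟩ : ∃ h, h = min e (min c w) / 64 := ⟨_, rfl⟩
  have hm : 0 < min e (min c w) := lt_min he (lt_min hc0 hw0)
  have hh0 : 0 < h := by rw [hh]; linarith
  have hhe : 64 * h ≤ e := by
    rw [hh]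
    linarith [min_le_left e (min c w)]
  have hhc : 64 * h ≤ c := by
    rw [hh]
    linarith [(min_le_right e (min c w)).trans (min_le_left c w)]
  have hhw : 64 * h ≤ w := by
    rw [hh]
    linarith [(min_le_right e (min c w)).trans (min_le_right c w)]
  obtain ⟨v, hv0, hvw, K, C, hC, hbas⟩ := tgt_pos H hTop hF hw F hwα hh0
  rw [← hp] at hbas
  refine ⟨v, hv0, hvw, fun w₁ hvw₁ hw₁ => ?_⟩
  have htm : TmC S 6 := H.tmc
  have hC₀ : (0 : ℝ) ≤ 6 := by norm_num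
  have hfull : Ful S (univ.erase (lst hn)) w₁ u := ful_win hful hw₁ hw1.le
  have hgrd := grd_pt htm hw0.le hw1 (t2c_le F.t2 hwα.le) K (h := 5 * h) (by linarith)
  have hrz := rz_cls hC₀ (pos_tm htm) (Pool.GEN.N34.tm_sub34 hC₀ htm) (univ.erase (lst hn)) (lst hn)
    (hw₁.trans hwu) (hw0.le.trans hwu) hu1 hfull K hh0
  obtain ⟨J₁, hJ₁⟩ := exists_nat_ge (((K : ℝ) + 8) / h)
  have hC1 : 0 < C * (K + 1) := by positivity
  have hC2 : 0 < C * (K + 1) * 4 := by positivity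
  refine ⟨K, C * (K + 1) * 4 * 4, by positivity, Bas.mono J₁ (hbas.and
    ((bas_part hgrd hC1).and (bas_part hrz hC2))) ?_⟩
  rintro J hJ Fm A ⟨⟨B₁, q, hB₁, hP₁, hq, hlab⟩, hg, hz⟩
  have hJ0 : (0 : ℝ) ≤ J := Nat.cast_nonneg J
  have hJh : (J : ℝ) * h ≥ (K : ℕ) + 8 := by
    have h1 : (J₁ : ℝ) ≤ J := by exact_mod_cast hJ
    have h2 := hJ₁.trans h1
    rw [div_le_iff₀ hh0] at h2
    exact h2
  obtain ⟨P₁, hP₁e⟩ : ∃ P₁ : ℕ, P₁ = ⌊(p - 4 * h) * J⌋₊ := ⟨_, rfl⟩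
  obtain ⟨s, hs⟩ : ∃ s : ℕ, s = ⌈(1 - c + 5 * h) * J⌉₊ - P₁ := ⟨_, rfl⟩
  obtain ⟨n1, n2, n3, n4, n5⟩ := num_tl (D := K) (c := c) (e := e) (w := w) hJh
    (show p ≤ 1 - c by linarith) hh0 hhc hhe hhw hpw rfl hP₁e hs hq
  obtain ⟨V, z, z', G, B₂, hB₂, hP₂, hL⟩ := hlab (by omega)
  have hwJ : ⌊w₁ * J⌋₊ ≤ J := fl_le (hw₁.trans hw1.le) J
  have hL' := (hL.win (Nat.floor_le_floor (mul_le_mul_of_nonneg_right hvw₁ hJ0)) hwJ).mono
    (Finset.Subset.refl _) le_rfl (show P₁ ≤ q - K by omega)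
  have hB₂A : Sub B₂ A := fun ω hω => hB₁ ω (hB₂ ω hω)
  have hPB₂ : Pe Fm.p A ≤ C * (K + 1) * Pe Fm.p B₂ := by
    have h1 := Pe_nonneg Fm.isLaw B₂
    calc Pe Fm.p A ≤ C * Pe Fm.p B₁ := hP₁
      _ ≤ C * (K * Pe Fm.p B₂) := mul_le_mul_of_nonneg_left hP₂ hC.le
      _ ≤ C * (K + 1) * Pe Fm.p B₂ := by nlinarith [mul_nonneg hC.le h1]
  obtain ⟨B₃, hB₃, hP₃, hL₃⟩ := hg B₂ hB₂A hPB₂ ⌊w₁ * J⌋₊ P₁ s ⌈(s : ℝ) + 3 * (5 * h) * J⌉₊ V z
    _ G (Nat.floor_le_floor (mul_le_mul_of_nonneg_right hw₁ hJ0)) (by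
      rw [hP₁e]
      exact Nat.floor_le_floor (mul_le_mul_of_nonneg_right (by linarith) hJ0)) n2 (by
      have h1 : (⌊w₁ * J⌋₊ : ℝ) ≤ w₁ * J := Nat.floor_le (by
        have : 0 ≤ w₁ := by linarith
        positivity)
      have h2 : w₁ * J ≤ w * J := mul_le_mul_of_nonneg_right hw₁ hJ0
      linarith) (Nat.le_ceil _) hL'
  obtain ⟨B₄, hB₄, hP₄, hL₄⟩ := hz B₃ (fun ω hω => hB₂A ω (hB₃ ω hω)) (by nlinarith)
    P₁ ⌊(p - e) * J⌋₊ ⌊(1 - c + c / 2 - p) * J⌋₊ ⌈(s : ℝ) + 3 * (5 * h) * J⌉₊ V z _ G hL₃ n5 n4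
  refine ⟨B₄, fun ω hω => hB₂A ω (hB₃ ω (hB₄ ω hω)), ?_, V, z, _, G, hL₄⟩
  nlinarith

/-- **Closed labels of the target** with a gradient exponent, on a part of each event, at the windows
a bit before `w`. -/
theorem tgt_lb (H : Pk hn S P rr P' Λ) (hTop : TopS n) (hF : FZX (n - 1)) {o : Od n} {w : ℝ}
    (hw : w ∈ Gs P rr P' Λ o) : ∃ E u : ℝ, 0 ≤ E ∧ E + P w w < 1 ∧ w ≤ u ∧ u < 1 ∧
      ∀ e : ℝ, 0 < e → ∃ v : ℝ, 0 < v ∧ v < w ∧ ∀ w₁ : ℝ, v ≤ w₁ → w₁ ≤ w →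
      ∃ (K : ℕ) (C : ℝ), 0 < C ∧ Bas S (fun J F A => ∃ B : F.Ω → Prop, Sub B A ∧
        Pe F.p A ≤ C * Pe F.p B ∧ Lb F (univ.erase (lst hn)) (lst hn) K ⌊E * J⌋₊ J ⌊w₁ * J⌋₊
          ⌊u * J⌋₊ ⌊(P w w - e) * J⌋₊ B) := by
  obtain ⟨α, Q, c, F⟩ := H.fac hTop hF hw
  obtain ⟨-, h2, h3⟩ := gs_full H hTop hF hw
  obtain ⟨k1, k2, k3⟩ := tgt_lbU H hTop hF hw F F.gα
  exact ⟨_, _, k1, by linarith, h2, h3, k3⟩

end Pool.V0F
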