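import Pool.Agent.H3.V0F.Atte
import Pool.Agent.H92.V0F.Hex
import Pool.Agent.H91.FR.QpG

/-!
# Labels of the target with a gradient exponent, as a property of the windows

`attE_sub`: one subclass in which all the events have these labels at all good windows. `AttEQ`: the
property of a window, for the joints of the class theorems; `aePG_att`: it holds at almost every
window, in a subclass; `her_att`: it passes to subclasses.
-/

set_option autoImplicit false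

namespace Pool.V0F

open Finset Real MvPolynomial
open Pool.Agent.H49.Ent Pool.Agent.H32.Dense Pool.STK Pool.KA Pool.KSAT Pool.K2S Pool.PB Pool.GEN
open Pool.S6C Pool.GRD Pool.RCD Pool.LA91 Pool.PKG
open Pool.TOP (TopS)
open Pool.ONE (lst)

/-- **Labels with a gradient exponent** `E` exist. -/
def LbG {m : ℕ} (S : PCl m) (I : Finset (Fin m)) (k : Fin m) (w p : ℝ) : Prop :=
  ∃ rk E : ℝ, 0 ≤ rk ∧ rk < 1 ∧ 0 ≤ E ∧ E + p < 1 ∧ ∀ e : ℝ, 0 < e → ∃ K : ℕ,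
    Bas S (fun J F A => Lb F I k K ⌊(E + e) * J⌋₊ J ⌊w * J⌋₊ ⌊(rk + e) * J⌋₊ ⌊(p - e) * J⌋₊ A)

theorem LbG.sub {m : ℕ} {S S' : PCl m} (hs : ∀ (τ : ℝ) (J : ℕ) (F : Fam m J) (A : F.Ω → Prop),
    S'.St τ J F A → S.St τ J F A) {I : Finset (Fin m)} {k : Fin m} {w p : ℝ}
    (h : LbG S I k w p) : LbG S' I k w p := by
  obtain ⟨rk, E, h1, h2, h3, h4, h5⟩ := h
  refine ⟨rk, E, h1, h2, h3, h4, fun e he => ?_⟩
  obtain ⟨K, hK⟩ := h5 e he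
  exact ⟨K, hK.sub hs⟩

variable {n : ℕ} {hn : 2 ≤ n} {S : PCl n} {P : ℝ → ℝ → ℝ} {rr : ℝ → ℝ}
  {P' : ℕ → List (Fin n) × Fin n → ℝ → ℝ → ℝ} {Λ : Finset (Fin n) → Fin n → ℝ → ℝ → ℝ}

/-- **One subclass** in which all the events have labels of the target at all good windows. -/
theorem attE_sub (H : Pk hn S P rr P' Λ) (hTop : TopS n) (hF : FZX (n - 1)) :
    ∃ S' : PCl n, S'.Ne ∧
      (∀ (τ : ℝ) (J : ℕ) (F : Fam n J) (A : F.Ω → Prop), S'.St τ J F A → S.St τ J F A) ∧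
      ∀ (o : Od n) (w : ℝ), w ∈ Gs P rr P' Λ o →
        LbG S' (univ.erase (lst hn)) (lst hn) w (P w w) := by
  classical
  obtain ⟨Φ, hΦ⟩ : ∃ Φ : ℕ × ℚ × ℚ × ℚ × ℚ → Stat n, Φ = fun x (J : ℕ) F A =>
      Lb F (univ.erase (lst hn)) (lst hn) x.1 ⌊(x.2.1 : ℝ) * J⌋₊ J ⌊(x.2.2.1 : ℝ) * J⌋₊
        ⌊(x.2.2.2.1 : ℝ) * J⌋₊ ⌊(x.2.2.2.2 : ℝ) * J⌋₊ A := ⟨_, rfl⟩
  obtain ⟨I, hI⟩ : ∃ I : Set (ℕ × ℚ × ℚ × ℚ × ℚ), I = {x | ∃ C : ℝ, Bas S (fun J F A =>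
    ∃ B : F.Ω → Prop, Sub B A ∧ Pe F.p A ≤ C * Pe F.p B ∧ Φ x J F B)} := ⟨_, rfl⟩
  obtain ⟨S', h1, h2, h3⟩ := her_extc (ι := {x // x ∈ I}) H.ne (fun x => Φ x.1)
    (fun x J F A B hB h => by
      rw [hΦ] at h ⊢
      obtain ⟨V, z, z', G, h⟩ := h
      exact ⟨V, z, z', G, h.sub hB⟩) (fun x => by
      obtain ⟨x, hx⟩ := x
      rw [hI] at hx
      exact hx)
  refine ⟨S', h1, h2, fun o w hw => ?_⟩
  obtain ⟨E, u, hE0, hE, hwu, hu, h4⟩ := tgt_lb H hTop hF hw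
  obtain ⟨α, Q, c, Fc⟩ := H.fac hTop hF hw
  have hw0 := Fc.g0
  have hw1 := Fc.g1
  obtain ⟨E', hE1, hE2⟩ := exists_rat_btwn (show E < 1 - P w w by linarith)
  obtain ⟨u', hu1, hu2⟩ := exists_rat_btwn hu
  refine ⟨u', E', by linarith, hu2, by linarith, by linarith, fun e he => ?_⟩
  obtain ⟨v, hv0, hvw, h5⟩ := h4 (e / 2) (half_pos he)
  obtain ⟨w₁, hw₁, hw₁'⟩ := exists_rat_btwn hvw
  obtain ⟨s, hs1, hs2⟩ := exists_rat_btwn (show P w w - e < P w w - e / 2 by linarith)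
  obtain ⟨K, C, hC, h6⟩ := h5 w₁ hw₁.le hw₁'.le
  have hmem : (K, E', w₁, u', s) ∈ I := by
    rw [hI]
    refine ⟨C, Bas.mono 0 h6 ?_⟩
    rintro J _ F A ⟨B, hB, hP, V, z, z', G, h⟩
    have hJ0 : (0 : ℝ) ≤ J := Nat.cast_nonneg J
    refine ⟨B, hB, hP, ?_⟩
    rw [hΦ]
    exact ⟨V, z, z', G, h.mono (Finset.Subset.refl _) le_rfl
      (Nat.floor_le_floor (mul_le_mul_of_nonneg_right hE1.le hJ0))
      (Nat.floor_le_floor (mul_le_mul_of_nonneg_right hu1.le hJ0))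
      (Nat.floor_le_floor (mul_le_mul_of_nonneg_right hs2.le hJ0))⟩
  refine ⟨K, Bas.mono 0 (h3 ⟨_, hmem⟩) ?_⟩
  intro J _ F A hG
  rw [hΦ] at hG
  have hJ0 : (0 : ℝ) ≤ J := Nat.cast_nonneg J
  obtain ⟨V, z, z', G, h7⟩ := Pool.GEN.Lb.win hG
    (Nat.floor_le_floor (mul_le_mul_of_nonneg_right hw₁'.le hJ0)) (fl_le hw1.le J)
  exact ⟨V, z, z', G, h7.mono (Finset.Subset.refl _) le_rfl
      (Nat.floor_le_floor (mul_le_mul_of_nonneg_right (by linarith) hJ0))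
      (Nat.floor_le_floor (mul_le_mul_of_nonneg_right (by linarith) hJ0))
      (Nat.floor_le_floor (mul_le_mul_of_nonneg_right hs1.le hJ0))⟩

/-- **Labels of the target with a gradient exponent** at all windows of `G`. -/
def AttEQ {n : ℕ} (_ : Unit) (_ : ℕ) (S : PCl n) (_ : List (Fin n) × Fin n → ℝ → ℝ → ℝ) (_ : ℝ)
    (c : ℕ → Fin n) (_ : ℝ → ℝ → ℝ) (_ : ℝ → ℝ) (L _ : ℕ → ℝ → ℝ → ℝ) (_ : ℕ → Kg)
    (G : Set ℝ) (_ : ℝ) : Prop :=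
  ∀ w ∈ G, LbG S ((range (n - 1)).image c) (c (n - 1)) w (L (n - 1) w w)

theorem her_att (n : ℕ) : HerQ (AttEQ : PropG n Unit) := by
  intro p k₀ S S' P θ c Pt r L T κ G x hs h w hw
  exact (h w hw).sub hs

/-- **It holds at almost every window.** -/
theorem aePG_att (n : ℕ) : AePG n (AttEQ : PropG n Unit) := by
  intro hn S P r P' Λ PB PQ H hTop hF o G hG hGs
  obtain ⟨S', h1, h2, h3⟩ := attE_sub H.toPk hTop hF
  refine ⟨S', h1, h2, Filter.Eventually.of_forall fun g _ κ _ _ => ⟨0, fun w hw => ?_⟩⟩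
  rw [img_lst, cc_top, lvL_last]
  exact h3 o w (hGs hw)

end Pool.V0F
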