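import Pool.Agent.H65.ORD.Rz
import Pool.Agent.H91.LA.Nat
import Pool.Agent.H27.TOP.Tps
import Pool.Agent.H45.EXA.ExvB

/-!
# Closed labels of the target with a gradient

`grd_pt`: if there are no steep closed labels of the coordinate `k` (`T2c`), then all closed labels
of `k` have bounded gradients, in all directions, at most points.
-/

set_option autoImplicit false

namespace Pool.V0F

open Finset Real MvPolynomial
open Pool.Agent.H49.Ent Pool.Agent.H32.Dense Pool.STK Pool.KA Pool.KSAT Pool.K2S Pool.PB Pool.GEN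
open Pool.S6C Pool.GRD Pool.GRW
open Pool.ORD65 (LbS Pb_union)
open Pool.TOP (T2c)
open Pool.FLF (Fam.sub)
open Pool.BFL (Pb)

variable {m : ℕ}

theorem pe_pb {Ω : Type} [Fintype Ω] (p : Ω → ℝ) (N : Ω → Prop) : Pb p N = Pe p N := by
  rw [Pe_eq]
  rfl

/-- **Gradients at the points**, for all directions, from `T2c`. -/
theorem grd_pt {S : PCl m} {C₀ : ℝ} (htm : TmC S C₀) {k : Fin m} {α Q σ : ℝ}
    (hα0 : 0 ≤ α) (hα1 : α < 1) (hT : T2c S k α Q σ) (K : ℕ) {h : ℝ} (hh : 0 < h) :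
    Bas S (fun J F A => ∀ (a P₁ s e₁ : ℕ) (V : Type) (z : PtT F → V) (z' : LnT F → V)
      (G : V → MvPolynomial (Option (Fin m)) ℝ), a ≤ ⌊α * J⌋₊ → P₁ ≤ ⌊Q * J⌋₊ →
      (σ + h) * J ≤ P₁ + s → (a : ℝ) ≤ P₁ + h * J → s + 3 * h * J ≤ e₁ →
      LbP F (univ.erase k) k K J a P₁ A z z' G → ∃ B : F.Ω → Prop, Sub B A ∧
        Pe F.p A ≤ 4 * Pe F.p B ∧ LbS F (univ.erase k) k K e₁ J a P₁ B z z' G) := by
  classical
  obtain ⟨C, hC, hvel⟩ := vel_one m K
  have hl2 : 0 < Real.log 2 := Real.log_pos one_lt_two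
  have hC0 : 0 < C := by linarith
  obtain ⟨ψ, hψ⟩ : ∃ ψ : ℝ, ψ = min (h / 2) ((1 - α) / 2) * Real.log 2 / C := ⟨_, rfl⟩
  have hψ0 : 0 < ψ := by
    rw [hψ]
    have : 0 < min (h / 2) ((1 - α) / 2) := lt_min (by linarith) (by linarith)
    positivity
  have hψC : C * ψ = min (h / 2) ((1 - α) / 2) * Real.log 2 := by
    rw [hψ]
    field_simp
  have hψ1 : C * ψ ≤ h / 2 * Real.log 2 := by
    rw [hψC]
    exact mul_le_mul_of_nonneg_right (min_le_left _ _) hl2.le
  have hψ2 : C * ψ ≤ (1 - α) / 2 * Real.log 2 := by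
    rw [hψC]
    exact mul_le_mul_of_nonneg_right (min_le_right _ _) hl2.le
  obtain ⟨J₁, hJ₁⟩ := exists_nat_ge (C / (h / 2 * Real.log 2) + C / ((1 - α) / 2 * Real.log 2) +
    ((m : ℝ) + 4) / (h * Real.log 2))
  refine Bas.mono J₁ ((bas_part (hT K h hh) (c := 4 * ((m : ℝ) + 1)) (by positivity)).and
    (tms_bas htm hψ0)) ?_
  rintro J hJ F A ⟨hno, hA, hTm⟩ a P₁ s e₁ V z z' G ha hP hPs haP he h₁
  have hJ0 : (0 : ℝ) ≤ J := Nat.cast_nonneg J
  have hJ1 : (J₁ : ℝ) ≤ J := by exact_mod_cast hJ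
  have hm0 : (0 : ℝ) ≤ m := Nat.cast_nonneg m
  have q1 : 0 < C / (h / 2 * Real.log 2) := by positivity
  have hα2 : 0 < (1 - α) / 2 := by linarith
  have q2 : 0 < C / ((1 - α) / 2 * Real.log 2) := by positivity
  have q3 : 0 < ((m : ℝ) + 4) / (h * Real.log 2) := by positivity
  have f1 : C ≤ h / 2 * Real.log 2 * J := by
    have : C / (h / 2 * Real.log 2) ≤ J := by linarith
    rw [div_le_iff₀ (by positivity)] at this
    linarith
  have f2 : C ≤ (1 - α) / 2 * Real.log 2 * J := by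
    have : C / ((1 - α) / 2 * Real.log 2) ≤ J := by linarith
    rw [div_le_iff₀ (by positivity)] at this
    linarith
  have f3 : (m : ℝ) + 4 ≤ h * J * Real.log 2 := by
    have : ((m : ℝ) + 4) / (h * Real.log 2) ≤ J := by linarith
    rw [div_le_iff₀ (by positivity)] at this
    linarith
  have haα : (a : ℝ) ≤ α * J := by
    have e1 : (a : ℝ) ≤ (⌊α * J⌋₊ : ℝ) := by exact_mod_cast ha
    exact e1.trans (Nat.floor_le (by positivity))
  have haJ : a ≤ J := by
    have : (a : ℝ) ≤ J := haα.trans (mul_le_of_le_one_left hJ0 hα1.le)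
    exact_mod_cast this
  -- the velocities
  obtain ⟨B₁, hB₁A, hPB₁, hB₁⟩ := hvel J F A hA a (fun s => G (z' s)) k (1 / 2 ^ P₁) (ψ * J)
    haJ (fun s => h₁.deg _) (by positivity) (by positivity) hTm (by
      have e1 : C * (ψ * J + 1) = C * ψ * J + C := by ring
      have e2 : C * ψ * J ≤ (1 - α) / 2 * Real.log 2 * J := mul_le_mul_of_nonneg_right hψ2 hJ0
      have e3 : (1 - α) * J * Real.log 2 ≤ ((J : ℝ) - a) * Real.log 2 :=
        mul_le_mul_of_nonneg_right (by linarith) hl2.le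
      rw [e1]
      linarith) h₁.pos
  -- the steep points
  obtain ⟨N, hN⟩ : ∃ N : Fin m → F.Ω → Prop, N = fun l ω => A ω ∧ l ≠ k ∧
      (2 : ℝ) ^ s ≤ |eval (bt F ω) (pderiv (some l) (G (z' (slam F a ω))))| := ⟨_, rfl⟩
  have hNl : ∀ l, Pe F.p (N l) ≤ Pe F.p A / (4 * ((m : ℝ) + 1)) := by
    intro l
    by_cases hl : l = k
    · have e1 : Pe F.p (N l) = 0 := by
        rw [hN, Pe_eq]
        refine Finset.sum_eq_zero fun ω _ => if_neg ?_
        rintro ⟨-, h2, -⟩
        exact h2 hl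
      rw [e1]
      have := hA.le
      positivity
    by_contra hcon
    push Not at hcon
    rw [div_lt_iff₀ (by positivity)] at hcon
    refine hno (N l) (fun ω hω => by rw [hN] at hω; exact hω.1) (by linarith) a P₁ s ha hP hPs
      ⟨V, z, z', G, h₁.sub (fun ω hω => by rw [hN] at hω; exact hω.1), l, hl, fun ω hω => ?_⟩
    rw [hN] at hω
    exact hω.2.2
  have hNs : Pe F.p (fun ω => A ω ∧ ∃ l, N l ω) ≤ Pe F.p A / 4 := by
    have e1 := Pb_union (p := F.p) F.isLaw.nonneg (B := fun ω => A ω ∧ ∃ l, N l ω) (N := N)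
      (fun ω hω => hω.2)
    simp only [pe_pb] at e1
    refine e1.trans ((Finset.sum_le_sum fun l _ => hNl l).trans ?_)
    rw [Finset.sum_const, Finset.card_univ, Fintype.card_fin, nsmul_eq_mul]
    have e2 : (m : ℝ) * (Pe F.p A / (4 * ((m : ℝ) + 1))) =
        m / (m + 1) * (Pe F.p A / 4) := by
      field_simp
    rw [e2]
    refine mul_le_of_le_one_left (by have := hA.le; positivity) ?_
    rw [div_le_one (by positivity)]
    linarith
  have hexp : Real.exp (C * (ψ * J + 1)) ≤ 2 ^ (h * J) := by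
    rw [← Pool.LA91.exp_p2]
    refine Real.exp_le_exp.2 ?_
    have e1 : C * (ψ * J + 1) = C * ψ * J + C := by ring
    have e2 : C * ψ * J ≤ h / 2 * Real.log 2 * J := mul_le_mul_of_nonneg_right hψ1 hJ0
    rw [e1]
    linarith
  refine ⟨fun ω => B₁ ω ∧ ¬ ∃ l, N l ω, fun ω hω => hB₁A ω hω.1, ?_,
    h₁.sub (fun ω hω => hB₁A ω hω.1), fun ω hω o => ?_⟩
  · have h3 := Pe_minus (A := A) (B := B₁) (N := fun ω => ∃ l, N l ω) F.isLaw.nonneg hB₁A
    linarith
  · have hAω := hB₁A ω hω.1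
    have hsp : ∀ l : Fin m, |eval (bt F ω) (pderiv (some l) (G (z' (slam F a ω))))| ≤ 2 ^ s := by
      intro l
      by_cases hl : l = k
      · subst hl
        rw [pderiv_dep _ _ (fun b b' hb => h₁.dep _ b b' (hb none (by simp)) fun i hi =>
          hb (some i) fun he => (Finset.mem_erase.1 hi).1 (Option.some.inj he)), abs_zero]
        positivity
      · by_contra hcon
        push Not at hcon
        refine hω.2 ⟨l, ?_⟩
        rw [hN]
        exact ⟨hAω, hl, hcon.le⟩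
    have hse : ((s : ℝ)) ≤ e₁ := by
      have : 0 ≤ 3 * h * (J : ℝ) := by positivity
      linarith
    rcases o with - | l
    swap
    · exact (hsp l).trans (pow_le_pow_right₀ (by norm_num) (by exact_mod_cast hse))
    -- the time
    have h2 := hB₁ ω hω.1
    have e1 : ∑ o, bd F ω o * eval (bt F ω) (pderiv o (G (z' (slam F a ω)))) =
        eval (bt F ω) (pderiv none (G (z' (slam F a ω)))) +
        ∑ l, F.d ω l * eval (bt F ω) (pderiv (some l) (G (z' (slam F a ω)))) := by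
      rw [Fintype.sum_option]
      show 1 * _ + _ = _
      rw [one_mul]
      rfl
    rw [e1] at h2
    have h3 : |∑ l, F.d ω l * eval (bt F ω) (pderiv (some l) (G (z' (slam F a ω))))| ≤
        m * 2 ^ s := by
      refine (Finset.abs_sum_le_sum_abs _ _).trans ((Finset.sum_le_sum (g := fun _ => (2 : ℝ) ^ s)
        fun l _ => ?_).trans (le_of_eq ?_))
      · rw [abs_mul]
        calc |F.d ω l| * _ ≤ 1 * 2 ^ s := mul_le_mul (F.dir ω l) (hsp l) (abs_nonneg _) zero_le_one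
          _ = 2 ^ s := one_mul _
      · rw [Finset.sum_const, Finset.card_univ, Fintype.card_fin, nsmul_eq_mul]
    have h4 : Real.exp (C * (ψ * J + 1)) * 2 ^ a * (1 / 2 ^ P₁) ≤ 2 ^ (2 * h * J) := by
      have e2 : (2 : ℝ) ^ a * (1 / 2 ^ P₁) ≤ 2 ^ (h * J) := by
        rw [← Real.rpow_natCast, ← Real.rpow_natCast, one_div, ← Real.rpow_neg (by norm_num),
          ← Real.rpow_add (by norm_num)]
        exact Real.rpow_le_rpow_of_exponent_le (by norm_num) (by linarith)
      calc Real.exp (C * (ψ * J + 1)) * 2 ^ a * (1 / 2 ^ P₁) =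
            Real.exp (C * (ψ * J + 1)) * (2 ^ a * (1 / 2 ^ P₁)) := by ring
        _ ≤ 2 ^ (h * J) * 2 ^ (h * J) := mul_le_mul hexp e2 (by positivity) (by positivity)
        _ = 2 ^ (2 * h * J) := by
          rw [← Real.rpow_add (by norm_num)]
          congr 1
          ring
    have h5 := F.dir ω k
    have h6 : |eval (bt F ω) (pderiv none (G (z' (slam F a ω))))| ≤
        1 + m * 2 ^ s + 2 ^ (2 * h * J) := by
      have h7 := h2.trans h4
      rw [abs_le] at h7 h3 h5 ⊢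
      constructor <;> linarith [h7.1, h7.2, h3.1, h3.2, h5.1, h5.2]
    refine h6.trans ?_
    have hE : (2 : ℝ) ^ ((s : ℝ) + 3 * h * J) ≤ 2 ^ e₁ := by
      rw [← Real.rpow_natCast]
      exact Real.rpow_le_rpow_of_exponent_le (by norm_num) he
    refine le_trans ?_ hE
    rw [Real.rpow_add (by norm_num), Real.rpow_natCast]
    have p1 : (1 : ℝ) ≤ 2 ^ s := one_le_pow₀ (by norm_num)
    have p2 : (1 : ℝ) ≤ 2 ^ (2 * h * J) := Real.one_le_rpow (by norm_num) (by positivity)
    have p3 : (2 : ℝ) ^ (3 * h * J) = 2 ^ (2 * h * J) * 2 ^ (h * J) := by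
      rw [← Real.rpow_add (by norm_num)]
      congr 1
      ring
    have p4 : (m : ℝ) + 4 ≤ 2 ^ (h * J) := by
      have h9 := Real.add_one_le_exp (h * J * Real.log 2)
      rw [Pool.LA91.exp_p2] at h9
      linarith
    have p5 : (m : ℝ) * 2 ^ s ≤ m * 2 ^ s * 2 ^ (2 * h * J) :=
      le_mul_of_one_le_right (by positivity) p2
    rw [p3]
    calc (1 : ℝ) + m * 2 ^ s + 2 ^ (2 * h * J) ≤
          2 ^ s * 2 ^ (2 * h * J) + m * 2 ^ s * 2 ^ (2 * h * J) + 2 ^ s * 2 ^ (2 * h * J) := by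
          have e3 : (1 : ℝ) ≤ 2 ^ s * 2 ^ (2 * h * J) := by nlinarith
          have e4 : (2 : ℝ) ^ (2 * h * J) ≤ 2 ^ s * 2 ^ (2 * h * J) :=
            le_mul_of_one_le_left (by positivity) p1
          linarith
      _ = 2 ^ s * 2 ^ (2 * h * J) * (m + 2) := by ring
      _ ≤ 2 ^ s * 2 ^ (2 * h * J) * 2 ^ (h * J) :=
          mul_le_mul_of_nonneg_left (by linarith) (by positivity)
      _ = _ := by ring

end Pool.V0F
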