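import Pool.Agent.H44.V0F.S
import Pool.Agent.H91.FR.QEG

/-!
# Positions and velocities over the charts of a later window

`vup_step`: one step between windows of `G` with a small gap. `vup_all`: from the rough charts of the
window `b` to the charts of any window of `G`. `t_vup`: the statement `VupStmt`.
-/

set_option autoImplicit false

namespace Pool.V0F

open Finset Real MvPolynomial
open Pool.Agent.H49.Ent Pool.Agent.H32.Dense Pool.STK Pool.KA Pool.KSAT Pool.K2S Pool.PB Pool.GEN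
open Pool.S6C Pool.RCD Pool.LA91 Pool.AVG96

variable {m : ℕ} {S : PCl m} {c : ℕ → Fin m} {r : ℕ} {sn : ℕ → ℝ → ℝ} {G : Set ℝ} {b o φ : ℝ}

/-- The levels at two windows. -/
theorem Lad.dif (L : Lad S c r sn G b o φ) {i : ℕ} (hi : i < r) {v v' : ℝ} (hv : v ∈ G)
    (hv' : v' ∈ G) (h1 : b ≤ v) (h2 : v ≤ o) (h1' : b ≤ v') (h2' : v' ≤ o) :
    sn i v' - sn i v ≤ v' - v + 2 * φ := by
  have k1 := abs_le.1 (L.fl i hi v hv h1 h2)
  have k2 := abs_le.1 (L.fl i hi v' hv' h1' h2')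
  linarith

variable {α γ : ∀ J : ℕ, Fam m J → Type}
  {f : ∀ (J : ℕ) (F : Fam m J), F.Ω → α J F} {y : ∀ (J : ℕ) (F : Fam m J), F.Ω → γ J F}

/-- **One step** to a later window, for one coordinate. -/
theorem vup_one (L : Lad S c r sn G b o φ)
    (hf : ∀ (J : ℕ) (F : Fam m J), ∃ χ : α J F → PtT F, ∀ ω, ptr F J ω = χ (f J F ω))
    (hy : Kn ((range 0).image c) 1 1 y) {w : ℝ} {n : ℕ → ℝ} (hw : w ∈ G) (hwo : w ≤ o)
    (hn : Nst r sn w φ n) {v v' : ℝ} (hv : v ∈ G) (hv' : v' ∈ G) (hbv : b ≤ v) (hvv : v ≤ v')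
    (hv3 : v' ≤ v + 3 * φ) (hvw : v' ≤ w) {p : ℕ → ℝ} (hp : ∀ i < r, sn i v - φ ≤ p i) {i : ℕ}
    (hi : i < r) {j' : ℕ} (hj' : j' ≤ 1) :
    Few S f (vg v') y (jetQ m c 0 r v p (fun l j' => n l - (j' : ℝ) * w))
      (qJet m ((range i).image c) (c i) j' v' (sn i v') (n i - (j' : ℝ) * w)) := by
  obtain ⟨C₀, htm⟩ := L.tm
  obtain ⟨u₁, rd, hrd, hch⟩ := L.ch.ch v' hv'
  have hφ := L.φ0
  have hv1 : v' < 1 := hch.u0
  have hv0 : 0 ≤ v' := hch.w0
  have hmin : min (1 : ℝ) (1 - v') = 1 - v' := min_eq_right (by linarith)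
  -- the levels
  have d1 : ∀ i < r, sn i v' - φ - 5 * φ ≤ p i := fun i hi => by
    have k1 := L.dif hi hv hv' hbv (by linarith) (by linarith) (by linarith)
    have k2 := hp i hi
    linarith
  have d2 : ∀ i < r, sn i w - sn i v' ≤ w - v' + 2 * φ := fun i hi =>
    L.dif hi hv' hw (by linarith) (by linarith) (by linarith) hwo
  have d3 : ∀ i < r, w - v' - 2 * φ ≤ sn i w - sn i v' := fun i hi => by
    have := L.dif hi hw hv' (by linarith) hwo (by linarith) (by linarith)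
    linarith
  have e1 := d1 i hi
  have e2 := d2 i hi
  have e3 := d3 i hi
  have e4 := hn.hi i hi
  have hmn : sn i v' - 6 * φ ≤ min (p i) (sn i v') := le_min (by linarith) (by linarith)
  obtain ⟨lv, hlv⟩ : ∃ lv : ℕ → ℝ, lv = fun l => n l - (j' : ℝ) * (w - v') - sn l v' - φ := ⟨_, rfl⟩
  have hj0 : (0 : ℝ) ≤ j' := Nat.cast_nonneg _
  have hj1 : (j' : ℝ) ≤ 1 := by exact_mod_cast hj'
  have hjw : (j' : ℝ) * (w - v') ≤ w - v' := by nlinarith
  have hjw0 : 0 ≤ (j' : ℝ) * (w - v') := mul_nonneg hj0 (by linarith)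
  have key := few_jetN (f := f) (y := y) htm (hch.take (Nat.zero_le i) hi.le) (k := c i)
    (j := j') (wv := fun _ _ => v) (pv := fun l _ => p l)
    (Nv := fun l j'' => n l - (j'' : ℝ) * w)
    (lv := lv) (w₁ := v) (w₂ := v') (p₁ := p i) (p₂ := sn i v')
    (N₁ := n i - (j' : ℝ) * w) (N₂ := n i - (j' : ℝ) * w) (p₀ := 1) (lam := 1) (σ₀ := φ)
    (fun _ _ _ _ _ => hvv) hvv le_rfl hv1 le_rfl one_pos hφ (by
      intro l _ hl
      have k1 := hn.lo l (by omega)
      have k2 := d3 l (by omega)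
      rw [hlv]
      show 0 < n l - (j' : ℝ) * (w - v') - sn l v' - φ
      linarith) (by
      intro l _ hl j'' hj''
      rw [hlv]
      show sn l v' + (n l - (j' : ℝ) * (w - v') - sn l v' - φ) + φ ≤
        n l - (j'' : ℝ) * w + (j'' : ℝ) * v'
      have k1 : (j'' : ℝ) ≤ j' := by exact_mod_cast hj''
      nlinarith) (by
      intro l _ hl j'' hj''
      have k1 := hn.hi l (by omega)
      have k2 := d1 l (by omega)
      have k3 := d2 l (by omega)
      rw [hlv, hmin]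
      show sn l v' + (n l - (j' : ℝ) * (w - v') - sn l v' - φ) + φ ≤
        min (p l) (sn l v') + (1 - v')
      have k4 : sn l v' - 6 * φ ≤ min (p l) (sn l v') := le_min (by linarith) (by linarith)
      linarith) (by
      intro l _ hl j'' hj'' l' _ hl'
      have k1 := hn.ne l (by omega) l' hl'
      have k2 := d1 l (by omega)
      have k3 := d3 l (by omega)
      have k5 := d2 l' (by omega)
      have k6 := d2 l (by omega)
      have k7 := d3 l' (by omega)
      rw [hlv]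
      show sn l v' + (n l - (j' : ℝ) * (w - v') - sn l v' - φ) + φ ≤
        min (p l) (sn l v') + (n l' - (j' : ℝ) * (w - v') - sn l' v' - φ)
      have k4 : sn l v' - 6 * φ ≤ min (p l) (sn l v') := le_min (by linarith) (by linarith)
      linarith) le_rfl (by
      rw [hmin]
      have k1 : n i - (j' : ℝ) * w + (j' : ℝ) * v' = n i - (j' : ℝ) * (w - v') := by ring
      linarith) (by
      intro l _ hl
      have k1 := hn.ne i hi l hl
      have k3 := d3 l (by omega)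
      have k5 := d2 l (by omega)
      rw [hlv]
      show n i - (j' : ℝ) * w + (j' : ℝ) * v' + φ ≤
        min (p i) (sn i v') + (n l - (j' : ℝ) * (w - v') - sn l v' - φ)
      have k2 : n i - (j' : ℝ) * w + (j' : ℝ) * v' = n i - (j' : ℝ) * (w - v') := by ring
      linarith) hf hy
  refine Few.pre L.pos (fun u : ℕ → ℕ → ℤ => ((fun l j'' => if 0 ≤ l ∧ l < i ∧ j'' ≤ j' then
    u l j'' else 0), u i j')) ?_ key
  intro K e J F A u hu
  exact ⟨qJets_take hi.le hj' hu, hu.1 i (Nat.zero_le _) hi j' hj'⟩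

/-- **One step** to a later window. -/
theorem vup_step (L : Lad S c r sn G b o φ)
    (hf : ∀ (J : ℕ) (F : Fam m J), ∃ χ : α J F → PtT F, ∀ ω, ptr F J ω = χ (f J F ω))
    (hy : Kn ((range 0).image c) 1 1 y) {w : ℝ} {n : ℕ → ℝ} (hw : w ∈ G) (hwo : w ≤ o)
    (hn : Nst r sn w φ n) {v v' : ℝ} (hv : v ∈ G) (hv' : v' ∈ G) (hbv : b ≤ v) (hvv : v ≤ v')
    (hv3 : v' ≤ v + 3 * φ) (hvw : v' ≤ w) {p : ℕ → ℝ} (hp : ∀ i < r, sn i v - φ ≤ p i) :
    Few S f (vg v') y (jetQ m c 0 r v p (fun l j' => n l - (j' : ℝ) * w))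
      (jetQ m c 0 r v' (fun l => sn l v') (fun l j' => n l - (j' : ℝ) * w)) :=
  few_qjets L.pos fun _ _ hi _ hj' => vup_one L hf hy hw hwo hn hv hv' hbv hvv hv3 hvw hp hi hj'

/-- **From the rough charts** of the window `b` to the charts of any window of `G`. -/
theorem vup_all (L : Lad S c r sn G b o φ)
    (hf : ∀ (J : ℕ) (F : Fam m J), ∃ χ : α J F → PtT F, ∀ ω, ptr F J ω = χ (f J F ω))
    (hy : Kn ((range 0).image c) 1 1 y) {w : ℝ} {n p : ℕ → ℝ} (hw : w ∈ G) (hwo : w ≤ o)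
    (hn : Nst r sn w φ n) (hp : ∀ i < r, sn i b - φ ≤ p i) (k : ℕ) : ∀ v ∈ G, b ≤ v → v ≤ w →
    v - b ≤ k * φ →
    Few S f (vg v) y (jetQ m c 0 r b p (fun l j' => n l - (j' : ℝ) * w))
      (jetQ m c 0 r v (fun l => sn l v) (fun l j' => n l - (j' : ℝ) * w)) := by
  have hφ := L.φ0
  induction k with
  | zero =>
    intro v hv hbv hvw h1
    rw [Nat.cast_zero, zero_mul] at h1
    exact vup_step L hf hy hw hwo hn L.bG hv le_rfl hbv (by linarith) hvw hp
  | succ k ih =>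
    intro v hv hbv hvw h1
    rcases le_or_gt (v - b) (3 * φ) with h2 | h2
    · exact vup_step L hf hy hw hwo hn L.bG hv le_rfl hbv (by linarith) hvw hp
    obtain ⟨x, hx, h3⟩ := L.gap (v - 2 * φ) (by linarith) (by linarith)
    have h4 := abs_le.1 h3
    push_cast at h1
    have h5 := ih x hx (by linarith) (by linarith) (by linarith)
    obtain ⟨u₁, rd, hrd, hch⟩ := L.ch.ch x hx
    obtain ⟨u₂, rd₂, hrd₂, hch₂⟩ := L.ch.ch v hv
    have hxs : Exs S (jetQ m c 0 r x (fun l => sn l x) (fun l j' => n l - (j' : ℝ) * w)) :=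
      exs_qjets fun l l0 l1 j' _ => exs_jet (hrd l l1) (hch.att l l0 l1)
    have hup : ∀ (J : ℕ) (F : Fam m J), ∃ χ : LnT F → LnT F, ∀ ω,
        vg x J F ω = χ (vg v J F ω) := fun J F => vg_mono (by linarith) hch₂.u0.le J F
    exact Few.trans L.pos hxs
      (Few.up (f' := f) (y' := y) L.pos (fun J F => ⟨fun x => x, fun _ => rfl⟩) hup
        (fun J F => ⟨fun x => x, fun _ => rfl⟩) h5)
      (vup_step L hf hy hw hwo hn hx hv (by linarith) (by linarith) (by linarith) hvw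
        fun i _ => by linarith)

/-- **(VUP).** -/
theorem t_vup : VupStmt := by
  intro m S c r sn G b o φ L α γ f y hf hy w ow p n hw hbw hwo how how1 hp hn i hi j hj
  obtain ⟨k, hk⟩ := exists_nat_ge ((w - b) / φ)
  have h1 : w - b ≤ k * φ := by
    rwa [div_le_iff₀ L.φ0] at hk
  have h2 := vup_all L hf hy hw hwo hn hp k w hw hbw le_rfl h1
  obtain ⟨u₁, rd, hrd, hch⟩ := L.ch.ch w hw
  have hxs : Exs S (jetQ m c 0 r w (fun l => sn l w) (fun l j' => n l - (j' : ℝ) * w)) :=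
    exs_qjets fun l l0 l1 j' _ => exs_jet (hrd l l1) (hch.att l l0 l1)
  have h3 := Few.trans L.pos hxs h2
    (vup_one L hf hy hw hwo hn hw hw hbw le_rfl (by linarith [L.φ0]) le_rfl
      (fun i _ => by linarith [L.φ0]) hi hj)
  have hup : ∀ (J : ℕ) (F : Fam m J), ∃ χ : LnT F → LnT F, ∀ ω,
      vg w J F ω = χ (vg ow J F ω) := fun J F => vg_mono (by linarith) how1 J F
  exact Few.up (f' := f) (y' := y) L.pos (fun J F => ⟨fun x => x, fun _ => rfl⟩) hup
    (fun J F => ⟨fun x => x, fun _ => rfl⟩) h3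

end Pool.V0F
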